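import Pool.Agent.MelD.Fox
import Pool.Agent.MelS.Def

/-!
# Free products with `ℤ` in one-relator groups: definitions

Project MelF.  THEOREM F.  Let `G` be an infinite Mel'nikov group which is not generated by two elements, virtually RFRS,
and such that every finitely generated subgroup is a virtual retract.  Then every finitely generated subgroup of
infinite index is free.

Plan.  `H` finitely generated of infinite index, RFRS, generated by `n` elements; `N` of finite index, large, `H ≤ N`,
`ρ : N → H` a retraction, `N` generated by `k ≥ n + 2` elements with one relator `r`.  Fox derivatives in `K[H]`: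
`D = ∂ r`.  If `D = 0` then `Der (ZMod 2) H`, so `H` is free (MelE).  If `D ≠ 0` there is `w` in the kernel of
`F_k → H` such that `D` and `∂ w` are left linearly independent over `K[H]` (`exists_ind`: a rank argument in the
noetherian domains `K[H / k_i]`), and then `H` and the image `g` of `w` generate the free product `H * ⟨g⟩` in `N`
(`emb`: the elements `u_h r u_h⁻¹`, `u_h w u_h⁻¹` of the free group `ker (F_k → H)` are linearly independent in the
abelianization, so there are homomorphisms to groups of power series with prescribed values at all of them
(`exists_hom`): `1` at the first, a Magnus representation at the others).  `H * ⟨g⟩` is finitely generated, so a virtual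
retract, and `H` is free by MelE.

* `RetH`: a one-relator presentation `q` of `N` and `H` as a retract of `N`; `f` the homomorphism of the free group
  to `K[H]`; `D` the Fox derivatives of `r`.
* `Ind K w`: `D` and the Fox derivatives of `w` are left linearly independent over `K[H]`.
-/

namespace Pool.Agent.MelF

open Pool.Agent.MelD (fox)

/-- A one-relator presentation of `N` and a group `H` as a retract of `N`. -/
structure RetH (N H : Type) [Group N] [Group H] (k : ℕ) where
  q : FreeGroup (Fin k) →* N
  hq : Function.Surjective q
  r : FreeGroup (Fin k)
  hr : q.ker = Subgroup.normalClosure {r}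
  ρ : N →* H
  s : H →* N
  hs : ∀ h, ρ (s h) = h

namespace RetH

noncomputable section

variable {N H : Type} [Group N] [Group H] {k : ℕ} (X : RetH N H k)

/-- The homomorphism of the free group to `K[H]`. -/
def f (K : Type) [Field K] : FreeGroup (Fin k) →* MonoidAlgebra K H :=
  (MonoidAlgebra.of K H).comp (X.ρ.comp X.q)

theorem f_apply (K : Type) [Field K] (w : FreeGroup (Fin k)) :
    X.f K w = MonoidAlgebra.single (X.ρ (X.q w)) (1 : K) := rfl

/-- The Fox derivatives of the relator in `K[H]`. -/
def D (K : Type) [Field K] (m : Fin k) : MonoidAlgebra K H := fox (X.f K) m X.r

/-- Left linear independence of the Fox derivatives of `r` and `w`. -/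
def Ind (K : Type) [Field K] (w : FreeGroup (Fin k)) : Prop :=
  ∀ a b : MonoidAlgebra K H, (∀ m, a * X.D K m + b * fox (X.f K) m w = 0) → a = 0 ∧ b = 0

end

end RetH

end Pool.Agent.MelF
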