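import Pool.Agent.MelF.Def
import Pool.Agent.MelE.Def

/-!
# The case of a vanishing row (module F8)

`der_of_zero`: as `der_of_matrix`, `der_of_zero` in MelE/DerR.lean, for `RetH`: if `D = 0` in `K[H]`, then the derivation
`w ↦ (fox (f K) m w)_m` of the free group vanishes on the normal closure of `r`, so it factors through `N`; composed with
`s` it gives `Der K H` with `u m = ρ (q x_m)` (`fundamental`).
`D_zero`: the Fox derivatives over `ℤ[H]` map to those over `ℚ[H]` (injective) and over `(ZMod 2)[H]` (`map_fox` and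
`MonoidAlgebra.mapRingHom`).
-/

namespace Pool.Agent.MelF

open Pool.Agent.MelD (fox coc coc_mul coc_one coc_inv coc_eq_sum fundamental map_fox fox_mul fox_of)
open Pool.Agent.MelE (Der)

private theorem dh_ker {N H : Type} [Group N] [Group H] {k : ℕ} (X : RetH N H k) {K : Type} [Field K]
    (h : ∀ m, X.D K m = 0) (m : Fin k) (n : FreeGroup (Fin k)) (hn : X.q n = 1) :
    fox (X.f K) m n = 0 := by
  have hf : ∀ g : FreeGroup (Fin k), X.q g = 1 → X.f K g = 1 := by
    intro g hg
    rw [X.f_apply, hg, map_one]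
    rfl
  have hinv : ∀ g : FreeGroup (Fin k), X.f K g⁻¹ * X.f K g = 1 := by
    intro g
    rw [← map_mul, inv_mul_cancel, map_one]
  have hone : fox (X.f K) m 1 = 0 := coc_one _ _
  have hi : ∀ g : FreeGroup (Fin k), fox (X.f K) m g⁻¹ = -(X.f K g⁻¹ * fox (X.f K) m g) :=
    fun g => coc_inv _ _ g
  let S : Subgroup (FreeGroup (Fin k)) :=
    { carrier := {g | X.q g = 1 ∧ fox (X.f K) m g = 0}
      one_mem' := ⟨map_one _, hone⟩
      mul_mem' := by
        rintro a b ⟨ha, ha'⟩ ⟨hb, hb'⟩
        refine ⟨by rw [map_mul, ha, hb, one_mul], ?_⟩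
        rw [fox_mul, ha', hb', mul_zero, add_zero]
      inv_mem' := by
        rintro a ⟨ha, ha'⟩
        refine ⟨by rw [map_inv, ha, inv_one], ?_⟩
        rw [hi, ha', mul_zero, neg_zero] }
  have hS : S.Normal := by
    refine ⟨fun a ha g => ⟨?_, ?_⟩⟩
    · rw [map_mul, map_mul, ha.1, mul_one, map_inv, mul_inv_cancel]
    · rw [fox_mul, fox_mul, ha.2, mul_zero, add_zero, hi, map_mul, hf a ha.1, mul_one, mul_neg,
        ← mul_assoc, ← map_mul, mul_inv_cancel, map_one, one_mul, add_neg_cancel]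
  have hr : X.r ∈ S := by
    refine ⟨?_, h m⟩
    have : X.r ∈ X.q.ker := by
      rw [X.hr]
      exact Subgroup.subset_normalClosure (Set.mem_singleton _)
    exact this
  have hle : Subgroup.normalClosure {X.r} ≤ S :=
    Subgroup.normalClosure_le_normal (Set.singleton_subset_iff.2 hr)
  have hn' : n ∈ Subgroup.normalClosure {X.r} := by
    rw [← X.hr]
    exact hn
  exact (hle hn').2

theorem der_of_zero {N H : Type} [Group N] [Group H] {k : ℕ} (X : RetH N H k) {K : Type} [Field K]
    (h : ∀ m, X.D K m = 0) : Der K H := by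
  have hcong : ∀ (m : Fin k) (g g' : FreeGroup (Fin k)), X.q g = X.q g' →
      fox (X.f K) m g = fox (X.f K) m g' := by
    intro m g g' hg
    have h2 : X.q (g * g'⁻¹) = 1 := by rw [map_mul, map_inv, hg, mul_inv_cancel]
    have h3 : X.f K (g * g'⁻¹) = 1 := by
      rw [X.f_apply, h2, map_one]
      rfl
    calc fox (X.f K) m g = fox (X.f K) m ((g * g'⁻¹) * g') := by rw [inv_mul_cancel_right]
      _ = fox (X.f K) m g' := by
          rw [fox_mul, dh_ker X h m _ h2, h3, one_mul, zero_add]
  choose lf hlf using X.hq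
  have hfl : ∀ g : H, X.f K (lf (X.s g)) = MonoidAlgebra.single g (1 : K) := by
    intro g
    rw [X.f_apply, hlf, X.hs]
  refine ⟨k, fun m => X.ρ (X.q (FreeGroup.of m)), fun g m => fox (X.f K) m (lf (X.s g)), ?_, ?_⟩
  · intro g g'
    funext m
    rw [Pi.add_apply, Pi.smul_apply, smul_eq_mul, ← hfl g, ← fox_mul]
    refine hcong m _ _ ?_
    rw [hlf, map_mul, map_mul, hlf, hlf]
  · intro g
    have h3 := fundamental (X.f K) (lf (X.s g))
    rw [hfl] at h3
    rw [h3]
    rfl

theorem D_zero {N H : Type} [Group N] [Group H] {k : ℕ} (X : RetH N H k) (h : ∀ m, X.D ℚ m = 0) (m : Fin k) :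
    X.D (ZMod 2) m = 0 := by
  -- over the integers
  set fZ : FreeGroup (Fin k) →* MonoidAlgebra ℤ H :=
    (MonoidAlgebra.of ℤ H).comp (X.ρ.comp X.q) with hfZ
  have hmap : ∀ (K : Type) [Field K], X.D K m =
      MonoidAlgebra.mapRingHom H (Int.castRingHom K) (fox fZ m X.r) := by
    intro K _
    rw [map_fox]
    unfold RetH.D
    congr 1
    refine MonoidHom.ext fun w => ?_
    rw [X.f_apply]
    show _ = MonoidAlgebra.mapRingHom H (Int.castRingHom K) (MonoidAlgebra.single (X.ρ (X.q w)) (1 : ℤ))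
    simp
  have h0 : fox fZ m X.r = 0 := by
    have h1 := h m
    rw [hmap ℚ] at h1
    ext x
    have h2 := congrArg (fun z : MonoidAlgebra ℚ H => z.coeff x) h1
    simpa using h2
  rw [hmap (ZMod 2), h0, map_zero]

end Pool.Agent.MelF
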