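import Pool.Agent.MelD.Gam

/-!
# Homomorphisms of a free group to power series with prescribed values (module F1)

`F` free, `ν : F → W` additive with values in a rational vector space, `ν (f i)` linearly independent: there are
homomorphisms `Φ : F → Gam R` with prescribed values at the `f i`, modulo `t ^ n`.

Induction on `n`: `Φ` is corrected on a basis of `F` by the factors `1 + Λ (ν b) t ^ n`, with a linear map `Λ : W → R`; these
factors are central modulo `t ^ (n + 1)`.
-/

open Finset PowerSeries

namespace Pool.Agent.MelF

open Pool.Agent.MelD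

/-- The elements `1 + c t ^ n`. -/
theorem exists_E (R : Type) [Ring R] (n : ℕ) (hn : 0 < n) : ∃ E : R → Gam R,
    (∀ (u : Gam R) (c : R) (m : ℕ), m < n + 1 → coeff m (ser (u * E c)) = coeff m (ser u) + if m = n then c else 0) ∧
    (∀ (u : Gam R) (c : R) (m : ℕ), m < n + 1 → coeff m (ser (E c * u)) = coeff m (ser u) + if m = n then c else 0) := by
  have h1 : ∀ c : R, ∃ u : Gam R, ser u = 1 + PowerSeries.C c * X ^ n := by
    intro c
    refine exists_ser _ ?_
    rw [map_add, map_one, map_mul, map_pow, constantCoeff_X, zero_pow hn.ne', mul_zero, add_zero]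
  choose E hE using h1
  refine ⟨E, ?_, ?_⟩
  · intro u c m hm
    rw [ser_mul, hE, mul_add, mul_one, map_add]
    congr 1
    rw [coeff_mul]
    split_ifs with h
    · subst h
      rw [Finset.sum_eq_single (0, m)]
      · rw [coeff_zero_ser, one_mul, coeff_C_mul_X_pow, if_pos rfl]
      · rintro ⟨a, b⟩ hab hne
        rw [HasAntidiagonal.mem_antidiagonal] at hab
        simp only at hab
        rw [coeff_C_mul_X_pow, if_neg, mul_zero]
        rintro rfl
        apply hne
        rw [Prod.mk.injEq]
        exact ⟨by omega, rfl⟩
      · intro hh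
        exact absurd (by rw [HasAntidiagonal.mem_antidiagonal]; exact zero_add m) hh
    · refine Finset.sum_eq_zero ?_
      rintro ⟨a, b⟩ hab
      rw [HasAntidiagonal.mem_antidiagonal] at hab
      simp only at hab
      rw [coeff_C_mul_X_pow, if_neg (by omega), mul_zero]
  · intro u c m hm
    rw [ser_mul, hE, add_mul, one_mul, map_add]
    congr 1
    rw [coeff_mul]
    split_ifs with h
    · subst h
      rw [Finset.sum_eq_single (m, 0)]
      · rw [coeff_zero_ser, mul_one, coeff_C_mul_X_pow, if_pos rfl]
      · rintro ⟨a, b⟩ hab hne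
        rw [HasAntidiagonal.mem_antidiagonal] at hab
        simp only at hab
        rw [coeff_C_mul_X_pow, if_neg, zero_mul]
        rintro rfl
        apply hne
        rw [Prod.mk.injEq]
        exact ⟨rfl, by omega⟩
      · intro hh
        exact absurd (by rw [HasAntidiagonal.mem_antidiagonal]; exact add_zero m) hh
    · refine Finset.sum_eq_zero ?_
      rintro ⟨a, b⟩ hab
      rw [HasAntidiagonal.mem_antidiagonal] at hab
      simp only at hab
      rw [coeff_C_mul_X_pow, if_neg (by omega), zero_mul]

theorem exists_hom {F : Type} [Group F] [IsFreeGroup F] {W : Type} [AddCommGroup W] [Module ℚ W] (ν : F → W)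
    (hν : ∀ a b, ν (a * b) = ν a + ν b) {I : Type} (f : I → F) (hf : LinearIndependent ℚ fun i => ν (f i))
    {R : Type} [Ring R] [Algebra ℚ R] (y : I → Gam R) (n : ℕ) :
    ∃ Φ : F →* Gam R, ∀ i, Cong n (ser (Φ (f i))) (ser (y i)) := by
  classical
  induction n with
  | zero => exact ⟨1, fun i m hm => absurd hm (Nat.not_lt_zero m)⟩
  | succ n ih =>
    rcases Nat.eq_zero_or_pos n with rfl | hn
    · refine ⟨1, fun i m hm => ?_⟩
      obtain rfl : m = 0 := by omega
      rw [coeff_zero_ser, coeff_zero_ser]
    · obtain ⟨Φ, hΦ⟩ := ih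
      obtain ⟨Λ, hΛ⟩ : ∃ Λ : W →ₗ[ℚ] R, ∀ i, Λ (ν (f i)) = coeff n (ser (y i)) - coeff n (ser (Φ (f i))) := by
        obtain ⟨g, hg⟩ := LinearMap.exists_extend ((Module.Basis.span hf).constr ℚ
          (fun i => coeff n (ser (y i)) - coeff n (ser (Φ (f i)))))
        refine ⟨g, fun i => ?_⟩
        have h1 : ((Module.Basis.span hf i : Submodule.span ℚ (Set.range fun i => ν (f i))) : W) = ν (f i) :=
          congrArg Subtype.val (Module.Basis.span_apply hf i)
        have h2 := LinearMap.congr_fun hg (Module.Basis.span hf i)
        rw [Module.Basis.constr_basis] at h2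
        rw [← h1]
        exact h2
      obtain ⟨E, hE1, hE2⟩ := exists_E R n hn
      let p : Gam R →* Gam R ⧸ KD R (n + 1) := QuotientGroup.mk' _
      have hp : ∀ x y, p x = p y ↔ Cong (n + 1) (ser x) (ser y) := fun x y => mk_eq_mk (n + 1) x y
      have hν1 : ν 1 = 0 := by
        have := hν 1 1
        rw [mul_one] at this
        exact left_eq_add.mp this
      have hE0 : p (E 0) = 1 := by
        rw [← map_one p, hp]
        intro m hm
        have := hE1 1 0 m hm
        rw [one_mul] at this
        rw [this]
        split_ifs <;> rw [add_zero]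
      have hcen : ∀ u c, p (E c * u) = p (u * E c) := by
        intro u c
        rw [hp]
        intro m hm
        rw [hE1 u c m hm, hE2 u c m hm]
      have hadd : ∀ c d, p (E (c + d)) = p (E c * E d) := by
        intro c d
        rw [hp]
        intro m hm
        have h1 := hE1 1 (c + d) m hm
        have h2 := hE1 1 c m hm
        rw [one_mul] at h1 h2
        rw [hE1 (E c) d m hm, h1, h2]
        split_ifs
        · rw [add_assoc]
        · simp
      let Θ : F →* Gam R ⧸ KD R (n + 1) :=
        { toFun := fun x => p (Φ x * E (Λ (ν x)))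
          map_one' := by
            rw [hν1, map_zero, map_one, one_mul, hE0]
          map_mul' := fun a b => by
            rw [hν, map_add, map_mul Φ a b, map_mul p (Φ a * Φ b), map_mul p (Φ a) (Φ b), hadd, map_mul p,
              map_mul p (Φ a), map_mul p (Φ b)]
            have h1 : p (E (Λ (ν a))) * p (Φ b) = p (Φ b) * p (E (Λ (ν a))) := by
              rw [← map_mul, ← map_mul, hcen]
            simp only [mul_assoc]
            rw [← mul_assoc (p (E (Λ (ν a)))) (p (Φ b)), h1]
            simp only [mul_assoc] }
      let Φ' : F →* Gam R := IsFreeGroup.lift (fun b : IsFreeGroup.Generators F =>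
        Φ (IsFreeGroup.of b) * E (Λ (ν (IsFreeGroup.of b))))
      have h1 : p.comp Φ' = Θ := by
        apply IsFreeGroup.ext_hom
        intro b
        show p (Φ' (IsFreeGroup.of b)) = p (Φ (IsFreeGroup.of b) * E (Λ (ν (IsFreeGroup.of b))))
        rw [show Φ' (IsFreeGroup.of b) = _ from IsFreeGroup.lift_of _ _]
      refine ⟨Φ', fun i m hm => ?_⟩
      have h2 := (hp _ _).mp (DFunLike.congr_fun h1 (f i)) m hm
      rw [h2, hE1 _ _ m hm, hΛ]
      split_ifs with h
      · subst h
        abel
      · rw [add_zero]
        exact hΦ i m (by omega)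

end Pool.Agent.MelF
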