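import Pool.Agent.MelF.Def
import Pool.Agent.MelF.Lift
import Pool.Agent.MelD.Mag
import Pool.Agent.MelD.ResP

/-!
# The free product (module F2, helper23)

`F = ker (F_k → H)`, a free group; `u h` a lift of `s h`.  The Fox derivatives of `u_h x u_h⁻¹`, `x ∈ F`, are `h ∂ x`; so the
elements `u_h r u_h⁻¹`, `u_h w u_h⁻¹` have linearly independent Fox derivatives over `ℚ`.  A nontrivial element of the
kernel of `H * ℤ → H` is the image of a nontrivial `v` in the free group on `H`, `e_h ↦ h t h⁻¹`.  If its image in `N` is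
trivial then `κ v`, `e_h ↦ u_h w u_h⁻¹`, is in the normal closure of `r`, generated by the conjugates of the
`u_h r u_h⁻¹` under `F`.  Homomorphisms of `F` to power series with values `1` at the `u_h r u_h⁻¹` and
arbitrary values at the `u_h w u_h⁻¹` give a contradiction.
-/

open Finset PowerSeries

namespace Pool.Agent.MelF

open Pool.Agent.MelD

section

variable {α : Type}

/-- A nontrivial element of a free group is nontrivial in a free group of finite rank. -/
theorem exists_fin (v : FreeGroup α) (hv : v ≠ 1) : ∃ (n : ℕ) (g : α → Fin n), FreeGroup.map g v ≠ 1 := by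
  classical
  let T : Finset α := (v.toWord.map Prod.fst).toFinset
  have hL : v.toWord ≠ [] := fun h => hv (FreeGroup.toWord_eq_nil_iff.mp h)
  obtain ⟨x, L, hxL⟩ := List.exists_cons_of_ne_nil hL
  have hx : x.1 ∈ T := by
    rw [List.mem_toFinset, hxL]
    simp
  let e : T ≃ Fin T.card := T.equivFin
  let g : α → Fin T.card := fun h => if hh : h ∈ T then e ⟨h, hh⟩ else e ⟨x.1, hx⟩
  let g' : Fin T.card → α := fun i => (e.symm i).1
  refine ⟨T.card, g, fun h0 => hv ?_⟩
  have h1 : FreeGroup.map g' (FreeGroup.map g v) = v := by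
    have h2 : FreeGroup.mk v.toWord = v := FreeGroup.mk_toWord
    have h3 : List.map (fun x => (g' x.1, x.2)) (List.map (fun x => (g x.1, x.2)) v.toWord) = v.toWord := by
      rw [List.map_map]
      conv_rhs => rw [← List.map_id v.toWord]
      refine List.map_congr_left ?_
      intro a ha
      have ha' : a.1 ∈ T := by
        rw [List.mem_toFinset]
        exact List.mem_map_of_mem ha
      have h4 : g a.1 = e ⟨a.1, ha'⟩ := dif_pos ha'
      show (g' (g a.1), a.2) = a
      rw [h4]
      show ((e.symm (e ⟨a.1, ha'⟩)).1, a.2) = a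
      rw [Equiv.symm_apply_apply]
    rw [← h2, FreeGroup.map.mk, FreeGroup.map.mk, h3]
  rw [← h1, h0, map_one]

/-- Faithful representations of free groups by power series over a rational algebra. -/
theorem exists_mag (v : FreeGroup α) (hv : v ≠ 1) :
    ∃ μ : FreeGroup α →* Gam (Matrix (Fin 3) (Fin 3) ℚ), μ v ≠ 1 := by
  obtain ⟨n, g, hg⟩ := exists_fin v hv
  refine ⟨((gmap (Int.castRingHom ℚ).mapMatrix).comp (mag fun _ => 0)).comp (FreeGroup.map g), ?_⟩
  intro h
  have h1 : mag (fun _ => 0) (FreeGroup.map g v) ≠ 1 := by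
    intro h2
    exact hg (mag_injective _ (h2.trans (map_one _).symm))
  apply h1
  apply ser_injective
  ext m a b
  have h2 := congrArg (fun u => coeff m (ser u)) h
  simp only [MonoidHom.comp_apply] at h2
  rw [ser_gmap, ser_one] at h2
  have h3 := congrFun (congrFun h2 a) b
  rw [ser_one]
  have h4 : ((coeff m (ser (mag (fun _ => 0) (FreeGroup.map g v)))) a b : ℚ) =
      (coeff m (1 : PowerSeries (Matrix (Fin 3) (Fin 3) ℚ))) a b := h3
  rw [coeff_one] at h4 ⊢
  split_ifs with hm
  · rw [if_pos hm] at h4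
    rw [Matrix.one_apply] at h4 ⊢
    split_ifs with hab
    · rw [if_pos hab] at h4
      exact_mod_cast h4
    · rw [if_neg hab] at h4
      exact_mod_cast h4
  · rw [if_neg hm] at h4
    have h5 : (0 : Matrix (Fin 3) (Fin 3) ℚ) a b = 0 := rfl
    rw [h5] at h4
    show _ = (0 : ℤ)
    exact_mod_cast h4

end

section

variable {N H : Type} [Group N] [Group H] {k : ℕ} (X : RetH N H k)

theorem fox_conj (u x : FreeGroup (Fin k)) (hx : X.ρ (X.q x) = 1) (m : Fin k) :
    fox (X.f ℚ) m (u * x * u⁻¹) = X.f ℚ u * fox (X.f ℚ) m x := by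
  have h1 : X.f ℚ x = 1 := by rw [X.f_apply, hx]; rfl
  have h2 : fox (X.f ℚ) m (u * u⁻¹) = 0 := by
    rw [mul_inv_cancel]
    exact coc_one _ _
  rw [fox_mul] at h2
  rw [fox_mul, fox_mul, map_mul, h1, mul_one, add_right_comm, h2, zero_add]

theorem fox_mul_ker (x y : FreeGroup (Fin k)) (hx : X.ρ (X.q x) = 1) (m : Fin k) :
    fox (X.f ℚ) m (x * y) = fox (X.f ℚ) m x + fox (X.f ℚ) m y := by
  have h1 : X.f ℚ x = 1 := by rw [X.f_apply, hx]; rfl
  rw [fox_mul, h1, one_mul]

theorem rho_r : X.ρ (X.q X.r) = 1 := by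
  have h1 : X.r ∈ X.q.ker := by
    rw [X.hr]
    exact Subgroup.subset_normalClosure rfl
  rw [MonoidHom.mem_ker.mp h1, map_one]

end

/-- The elements of the free product. -/
theorem cop_form {H : Type} [Group H] (x : Monoid.Coprod H (Multiplicative ℤ)) :
    ∃ (v : FreeGroup H) (h : H), x = FreeGroup.lift (fun h : H => (Monoid.Coprod.inl h *
      Monoid.Coprod.inr (Multiplicative.ofAdd (1 : ℤ)) * (Monoid.Coprod.inl h)⁻¹ :
        Monoid.Coprod H (Multiplicative ℤ))) v * Monoid.Coprod.inl h := by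
  set φ : FreeGroup H →* Monoid.Coprod H (Multiplicative ℤ) := FreeGroup.lift (fun h : H => (Monoid.Coprod.inl h *
      Monoid.Coprod.inr (Multiplicative.ofAdd (1 : ℤ)) * (Monoid.Coprod.inl h)⁻¹ :
        Monoid.Coprod H (Multiplicative ℤ))) with hφ
  have hφo : ∀ h : H, φ (FreeGroup.of h) = Monoid.Coprod.inl h *
      Monoid.Coprod.inr (Multiplicative.ofAdd (1 : ℤ)) * (Monoid.Coprod.inl h)⁻¹ := by
    intro h
    rw [hφ, FreeGroup.lift_apply_of]
  have shift : ∀ (h : H) (v : FreeGroup H), Monoid.Coprod.inl h * φ v * (Monoid.Coprod.inl h)⁻¹ =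
      φ (FreeGroup.map (fun x => h * x) v) := by
    intro h v
    have h1 : (MulAut.conj (Monoid.Coprod.inl h : Monoid.Coprod H (Multiplicative ℤ))).toMonoidHom.comp φ =
        φ.comp (FreeGroup.map (fun x => h * x)) := by
      ext x
      show Monoid.Coprod.inl h * φ (FreeGroup.of x) * (Monoid.Coprod.inl h)⁻¹ =
        φ (FreeGroup.map (fun x => h * x) (FreeGroup.of x))
      rw [FreeGroup.map.of, hφo, hφo, map_mul, mul_inv_rev]
      simp only [mul_assoc]
    exact DFunLike.congr_fun h1 v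
  induction x using Monoid.Coprod.induction_on with
  | inl h => exact ⟨1, h, by rw [map_one, one_mul]⟩
  | inr n =>
    refine ⟨(FreeGroup.of 1) ^ (Multiplicative.toAdd n), 1, ?_⟩
    rw [map_zpow, hφo, map_one, one_mul, inv_one, mul_one, mul_one, ← map_zpow, ← ofAdd_zsmul, smul_eq_mul,
      mul_one, ofAdd_toAdd]
  | mul x y hx hy =>
    obtain ⟨v, h, rfl⟩ := hx
    obtain ⟨v', h', rfl⟩ := hy
    refine ⟨v * FreeGroup.map (fun x => h * x) v', h * h', ?_⟩
    rw [map_mul, ← shift, map_mul]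
    simp only [mul_assoc, inv_mul_cancel_left]

theorem emb {N H : Type} [Group N] [Group H] {k : ℕ} (X : RetH N H k) (w : FreeGroup (Fin k))
    (hw : X.ρ (X.q w) = 1) (hi : X.Ind ℚ w) :
    Function.Injective (Monoid.Coprod.lift X.s (zpowersHom N (X.q w))) := by
  classical
  rw [injective_iff_map_eq_one]
  intro x hx
  obtain ⟨v, h, hvh⟩ := cop_form x
  set φ : FreeGroup H →* Monoid.Coprod H (Multiplicative ℤ) := FreeGroup.lift (fun h : H => (Monoid.Coprod.inl h *
      Monoid.Coprod.inr (Multiplicative.ofAdd (1 : ℤ)) * (Monoid.Coprod.inl h)⁻¹ :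
        Monoid.Coprod H (Multiplicative ℤ))) with hφ
  set Ψ : Monoid.Coprod H (Multiplicative ℤ) →* N := Monoid.Coprod.lift X.s (zpowersHom N (X.q w)) with hΨ
  have hΨl : ∀ h, Ψ (Monoid.Coprod.inl h) = X.s h := fun h => Monoid.Coprod.lift_apply_inl _ _ _
  have hΨr : Ψ (Monoid.Coprod.inr (Multiplicative.ofAdd (1 : ℤ))) = X.q w := by
    rw [hΨ, Monoid.Coprod.lift_apply_inr]
    simp
  have hΨφ : ∀ h, Ψ (φ (FreeGroup.of h)) = X.s h * X.q w * (X.s h)⁻¹ := by
    intro h
    rw [hφ, FreeGroup.lift_apply_of, map_mul, map_mul, map_inv, hΨl, hΨr]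
  -- the component in `H`
  have h1 : ∀ v, X.ρ (Ψ (φ v)) = 1 := by
    intro v
    have h2 : (X.ρ.comp Ψ).comp φ = 1 := by
      ext h
      show X.ρ (Ψ (φ (FreeGroup.of h))) = 1
      rw [hΨφ, map_mul, map_mul, hw, mul_one, map_inv, mul_inv_cancel]
    exact DFunLike.congr_fun h2 v
  have hh : h = 1 := by
    have h2 := congrArg X.ρ hx
    rw [hvh, map_mul, map_mul, h1, one_mul, hΨl, X.hs, map_one] at h2
    exact h2
  rw [hh, map_one, mul_one] at hvh
  rw [hvh] at hx ⊢
  suffices hv : v = 1 by rw [hv, map_one]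
  by_contra hv
  obtain ⟨μ, hμ⟩ := exists_mag v hv
  -- the free group
  let F : Subgroup (FreeGroup (Fin k)) := (X.ρ.comp X.q).ker
  have hF : ∀ x, x ∈ F ↔ X.ρ (X.q x) = 1 := fun x => MonoidHom.mem_ker
  let u : H → FreeGroup (Fin k) := fun h => Function.surjInv X.hq (X.s h)
  have hu : ∀ h, X.q (u h) = X.s h := fun h => Function.surjInv_eq X.hq _
  have hmem : ∀ (h : H) (x : FreeGroup (Fin k)), X.ρ (X.q x) = 1 → u h * x * (u h)⁻¹ ∈ F := by
    intro h x hx
    rw [hF, map_mul, map_mul, map_mul, map_mul, hx, mul_one, map_inv, map_inv, mul_inv_cancel]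
  let fam : H ⊕ H → F := Sum.elim (fun h => ⟨u h * X.r * (u h)⁻¹, hmem h _ (rho_r X)⟩)
    (fun h => ⟨u h * w * (u h)⁻¹, hmem h _ hw⟩)
  let ν : F → (Fin k → MonoidAlgebra ℚ H) := fun x m => fox (X.f ℚ) m x.1
  have hν : ∀ a b, ν (a * b) = ν a + ν b := by
    intro a b
    funext m
    exact fox_mul_ker X _ _ ((hF _).mp a.2) m
  have hνl : ∀ h m, ν (fam (Sum.inl h)) m = MonoidAlgebra.single h (1 : ℚ) * X.D ℚ m := by
    intro h m
    show fox (X.f ℚ) m (u h * X.r * (u h)⁻¹) = _
    rw [fox_conj X _ _ (rho_r X), X.f_apply, hu, X.hs]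
    rfl
  have hνr : ∀ h m, ν (fam (Sum.inr h)) m = MonoidAlgebra.single h (1 : ℚ) * fox (X.f ℚ) m w := by
    intro h m
    show fox (X.f ℚ) m (u h * w * (u h)⁻¹) = _
    rw [fox_conj X _ _ hw, X.f_apply, hu, X.hs]
  have hind : LinearIndependent ℚ fun i => ν (fam i) := by
    rw [linearIndependent_iff']
    intro S g hg
    let a : MonoidAlgebra ℚ H := ∑ i ∈ S, Sum.elim (fun h => MonoidAlgebra.single h (g (Sum.inl h))) (fun _ => 0) i
    let b : MonoidAlgebra ℚ H := ∑ i ∈ S, Sum.elim (fun _ => 0) (fun h => MonoidAlgebra.single h (g (Sum.inr h))) i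
    have hab : ∀ m, a * X.D ℚ m + b * fox (X.f ℚ) m w = 0 := by
      intro m
      have h2 := congrFun hg m
      rw [Finset.sum_apply] at h2
      rw [Finset.sum_mul, Finset.sum_mul, ← Finset.sum_add_distrib]
      refine Eq.trans (Finset.sum_congr rfl ?_) h2
      rintro (h | h) _
      · simp only [Sum.elim_inl, zero_mul, add_zero]
        rw [Pi.smul_apply, hνl, ← smul_mul_assoc, MonoidAlgebra.smul_single, smul_eq_mul, mul_one]
      · simp only [Sum.elim_inr, zero_mul, zero_add]
        rw [Pi.smul_apply, hνr, ← smul_mul_assoc, MonoidAlgebra.smul_single, smul_eq_mul, mul_one]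
    obtain ⟨ha, hb⟩ := hi a b hab
    rintro (h | h) hS
    · have h2 := congrArg (fun z : MonoidAlgebra ℚ H => z.coeff h) ha
      simp only [a, MonoidAlgebra.coeff_sum, Finsupp.finsetSum_apply, MonoidAlgebra.coeff_zero, Finsupp.zero_apply] at h2
      rw [Finset.sum_eq_single (Sum.inl h)] at h2
      · simpa using h2
      · rintro (h' | h') _ hne
        · simp only [Sum.elim_inl, MonoidAlgebra.coeff_single]
          rw [Finsupp.single_eq_of_ne]
          rintro rfl
          exact hne rfl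
        · simp
      · intro hh
        exact absurd hS hh
    · have h2 := congrArg (fun z : MonoidAlgebra ℚ H => z.coeff h) hb
      simp only [b, MonoidAlgebra.coeff_sum, Finsupp.finsetSum_apply, MonoidAlgebra.coeff_zero, Finsupp.zero_apply] at h2
      rw [Finset.sum_eq_single (Sum.inr h)] at h2
      · simpa using h2
      · rintro (h' | h') _ hne
        · simp
        · simp only [Sum.elim_inr, MonoidAlgebra.coeff_single]
          rw [Finsupp.single_eq_of_ne]
          rintro rfl
          exact hne rfl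
      · intro hh
        exact absurd hS hh
  -- the element of the kernel
  let κ : FreeGroup H →* F := FreeGroup.lift (fun h => fam (Sum.inr h))
  have hκo : ∀ h, κ (FreeGroup.of h) = fam (Sum.inr h) := fun h => FreeGroup.lift_apply_of
  have hκ : ∀ v, X.q (κ v).1 = Ψ (φ v) := by
    intro v
    have h2 : (X.q.comp F.subtype).comp κ = Ψ.comp φ := by
      ext h
      show X.q (κ (FreeGroup.of h)).1 = Ψ (φ (FreeGroup.of h))
      rw [hκo, hΨφ]
      show X.q (u h * w * (u h)⁻¹) = _
      rw [map_mul, map_mul, map_inv, hu]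
    exact DFunLike.congr_fun h2 v
  have hκv : (κ v).1 ∈ Subgroup.normalClosure {X.r} := by
    rw [← X.hr, MonoidHom.mem_ker, hκ, hx]
  -- the power series
  have key : ∀ n, Cong n (ser (μ v)) 1 := by
    intro n
    obtain ⟨Φ, hΦ⟩ := exists_hom ν hν fam hind (Sum.elim (fun _ => 1) (fun h => μ (FreeGroup.of h))) n
    let p : Gam (Matrix (Fin 3) (Fin 3) ℚ) →* Gam (Matrix (Fin 3) (Fin 3) ℚ) ⧸ KD (Matrix (Fin 3) (Fin 3) ℚ) n :=
      QuotientGroup.mk' _
    have hp : ∀ x y, p x = p y ↔ Cong n (ser x) (ser y) := fun x y => mk_eq_mk n x y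
    have h3 : ∀ z : FreeGroup (Fin k), z ∈ Subgroup.normalClosure {X.r} →
        z ∈ ((p.comp Φ).ker).map F.subtype := by
      intro z hz
      have h4 : Group.conjugatesOfSet {X.r} ⊆ (((p.comp Φ).ker).map F.subtype : Set (FreeGroup (Fin k))) := by
        intro c hc
        rw [Group.mem_conjugatesOfSet_iff] at hc
        obtain ⟨a, ha, hac⟩ := hc
        rw [Set.mem_singleton_iff] at ha
        subst ha
        obtain ⟨g, rfl⟩ := isConj_iff.mp hac
        let h := X.ρ (X.q g)
        have hf : g * (u h)⁻¹ ∈ F := by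
          rw [hF, map_mul, map_mul, map_inv, map_inv, hu, X.hs]
          exact mul_inv_cancel _
        refine ⟨⟨_, hf⟩ * fam (Sum.inl h) * (⟨_, hf⟩)⁻¹, ?_, ?_⟩
        · show p (Φ _) = 1
          have h5 : p (Φ (fam (Sum.inl h))) = 1 := by
            rw [← map_one p, hp]
            exact hΦ (Sum.inl h)
          rw [map_mul, map_mul, map_inv, map_mul, map_mul, h5, mul_one, map_inv, mul_inv_cancel]
        · show g * (u h)⁻¹ * (u h * X.r * (u h)⁻¹) * (g * (u h)⁻¹)⁻¹ = _
          group
      exact (Subgroup.closure_le _).mpr h4 hz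
    obtain ⟨z, hz, hz'⟩ := h3 _ hκv
    have hz2 : z = κ v := Subtype.ext hz'
    rw [hz2] at hz
    have h4 : p (Φ (κ v)) = 1 := hz
    have h5 : (p.comp Φ).comp κ = p.comp μ := by
      ext h
      show p (Φ (κ (FreeGroup.of h))) = p (μ (FreeGroup.of h))
      rw [hκo, hp]
      exact hΦ (Sum.inr h)
    have h6 : p (μ v) = 1 := by
      rw [← h4]
      exact (DFunLike.congr_fun h5 v).symm
    have h7 := (hp (μ v) 1).mp (h6.trans (map_one p).symm)
    exact h7
  apply hμ
  apply ser_injective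
  rw [ser_one]
  ext m : 1
  exact key (m + 1) m (Nat.lt_succ_self m)

end Pool.Agent.MelF
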