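import Pool.Agent.MelL.UP
import Pool.Agent.L2Coh.Defs

/-!
# Locally indicable groups are left orderable (Burns, Hale)

`lo_fin`: for a finite set `F` of nontrivial elements there is a set `P` in the subgroup generated by `F`, closed under
multiplication, `1 ∉ P`, which contains `g` or `g⁻¹` for every `g ∈ F`: induction on the number of elements, with a
nontrivial homomorphism of the subgroup to the rationals: the elements of positive value, and the set `P₀` for the elements
of `F` of value zero.  The positive cone of the group is the limit of these sets along an ultrafilter.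
-/

namespace Pool.Agent.MelF

open Pool.Agent.MelL (LocInd)
open Pool.Agent.L2Coh (LeftOrderable)

theorem lo_fin {G : Type} [Group G] (h : LocInd G) (n : ℕ) : ∀ F : Finset G, F.card ≤ n → (1 : G) ∉ F →
    ∃ P : Set G, (∀ a ∈ P, ∀ b ∈ P, a * b ∈ P) ∧ (1 : G) ∉ P ∧ P ⊆ Subgroup.closure (F : Set G) ∧
      ∀ g ∈ F, g ∈ P ∨ g⁻¹ ∈ P := by
  classical
  induction n with
  | zero =>
    intro F hF _
    have hF0 : F = ∅ := Finset.card_eq_zero.1 (Nat.le_zero.1 hF)
    subst hF0
    exact ⟨∅, fun a ha => ha.elim, Set.notMem_empty _, Set.empty_subset _, fun g hg => absurd hg (Finset.notMem_empty g)⟩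
  | succ n ih =>
    intro F hF h1
    rcases F.eq_empty_or_nonempty with rfl | ⟨g₀, hg₀⟩
    · exact ⟨∅, fun a ha => ha.elim, Set.notMem_empty _, Set.empty_subset _, fun g hg => absurd hg (Finset.notMem_empty g)⟩
    obtain ⟨H, hH⟩ : ∃ H, H = Subgroup.closure (F : Set G) := ⟨_, rfl⟩
    have hsub : ∀ g ∈ F, g ∈ H := fun g hg => hH ▸ Subgroup.subset_closure hg
    have hfg : H.FG := ⟨F, hH.symm⟩
    have hne : H ≠ ⊥ := by
      rintro hbot
      have h2 := hsub g₀ hg₀
      rw [hbot, Subgroup.mem_bot] at h2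
      exact h1 (h2 ▸ hg₀)
    obtain ⟨χ, hχ⟩ := h H hfg hne
    -- the value
    let v : H → ℚ := fun x => (χ x).toAdd
    have hv : ∀ x y, v (x * y) = v x + v y := fun x y => by
      show (χ (x * y)).toAdd = _
      rw [map_mul, toAdd_mul]
    have hv1 : v 1 = 0 := by
      show (χ 1).toAdd = 0
      rw [map_one, toAdd_one]
    have hvi : ∀ x, v x⁻¹ = -v x := fun x => by
      show (χ x⁻¹).toAdd = _
      rw [map_inv, toAdd_inv]
    obtain ⟨g₁, hg₁, hvg₁⟩ : ∃ g, ∃ hg : g ∈ F, v ⟨g, hsub g hg⟩ ≠ 0 := by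
      by_contra hcon
      push Not at hcon
      apply hχ
      have h2 : H ≤ (χ.ker).map H.subtype := by
        conv_lhs => rw [hH]
        rw [Subgroup.closure_le]
        intro g hg
        refine ⟨⟨g, hsub g hg⟩, ?_, rfl⟩
        show χ _ = 1
        exact hcon g hg
      ext x
      obtain ⟨y, hy, hyx⟩ := h2 x.2
      have h3 : y = x := Subtype.ext hyx
      rw [← h3]
      exact congrArg Multiplicative.toAdd hy
    let F₀ : Finset G := F.filter fun g => ∃ hg : g ∈ H, v ⟨g, hg⟩ = 0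
    have hF₀ : F₀.card ≤ n := by
      have h2 : F₀ ⊂ F := by
        rw [Finset.ssubset_iff_of_subset (Finset.filter_subset _ _)]
        refine ⟨g₁, hg₁, fun h3 => ?_⟩
        obtain ⟨_, hg, h4⟩ := Finset.mem_filter.1 h3
        exact hvg₁ h4
      have h3 := Finset.card_lt_card h2
      omega
    obtain ⟨P₀, hm, h10, hcl, hsg⟩ := ih F₀ hF₀ fun h2 => h1 (Finset.mem_filter.1 h2).1
    have hker : ∀ g ∈ P₀, ∃ hg : g ∈ H, v ⟨g, hg⟩ = 0 := by
      intro g hg
      have h2 : Subgroup.closure (F₀ : Set G) ≤ (χ.ker).map H.subtype := by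
        rw [Subgroup.closure_le]
        intro x hx
        obtain ⟨_, hxH, hx0⟩ := Finset.mem_filter.1 (Finset.mem_coe.1 hx)
        exact ⟨⟨x, hxH⟩, hx0, rfl⟩
      obtain ⟨y, hy, hyx⟩ := h2 (hcl hg)
      have hgH : g ∈ H := hyx ▸ y.2
      refine ⟨hgH, ?_⟩
      have h3 : y = ⟨g, hgH⟩ := Subtype.ext hyx
      rw [← h3]
      exact congrArg Multiplicative.toAdd hy
    refine ⟨{g | ∃ hg : g ∈ H, 0 < v ⟨g, hg⟩} ∪ P₀, ?_, ?_, ?_, ?_⟩
    · rintro a (⟨ha, ha'⟩ | ha) b (⟨hb, hb'⟩ | hb)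
      · left
        refine ⟨H.mul_mem ha hb, ?_⟩
        have := hv ⟨a, ha⟩ ⟨b, hb⟩
        show 0 < v (⟨a, ha⟩ * ⟨b, hb⟩)
        linarith
      · left
        obtain ⟨hb1, hb2⟩ := hker b hb
        refine ⟨H.mul_mem ha hb1, ?_⟩
        have := hv ⟨a, ha⟩ ⟨b, hb1⟩
        show 0 < v (⟨a, ha⟩ * ⟨b, hb1⟩)
        linarith
      · left
        obtain ⟨ha1, ha2⟩ := hker a ha
        refine ⟨H.mul_mem ha1 hb, ?_⟩
        have := hv ⟨a, ha1⟩ ⟨b, hb⟩
        show 0 < v (⟨a, ha1⟩ * ⟨b, hb⟩)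
        linarith
      · right
        exact hm a ha b hb
    · rintro (⟨h2, h3⟩ | h2)
      · have h4 : v ⟨1, h2⟩ = 0 := hv1
        linarith
      · exact h10 h2
    · rintro g (⟨hg, _⟩ | hg)
      · rw [← hH]
        exact hg
      · rw [← hH]
        exact (hker g hg).1
    · intro g hg
      have hgH := hsub g hg
      rcases lt_trichotomy (v ⟨g, hgH⟩) 0 with h2 | h2 | h2
      · right
        left
        refine ⟨H.inv_mem hgH, ?_⟩
        have := hvi ⟨g, hgH⟩
        show 0 < v (⟨g, hgH⟩⁻¹)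
        linarith
      · rcases hsg g (Finset.mem_filter.2 ⟨hg, hgH, h2⟩) with h3 | h3
        · exact Or.inl (Or.inr h3)
        · exact Or.inr (Or.inr h3)
      · exact Or.inl (Or.inl ⟨hgH, h2⟩)

/-- A group with a positive cone is left orderable. -/
theorem leftOrderable_of_cone {G : Type} [Group G] (P : Set G) (hm : ∀ a ∈ P, ∀ b ∈ P, a * b ∈ P)
    (h1 : (1 : G) ∉ P) (ht : ∀ g, g ≠ 1 → g ∈ P ∨ g⁻¹ ∈ P) : LeftOrderable G := by
  classical
  let r : G → G → Prop := fun a b => a⁻¹ * b ∈ P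
  have hr : IsStrictTotalOrder G r :=
    { trichotomous := fun a b hab hba => by
        by_contra hne
        have h2 : a⁻¹ * b ≠ 1 := fun h3 => hne (inv_mul_eq_one.1 h3)
        rcases ht _ h2 with h3 | h3
        · exact hab h3
        · rw [mul_inv_rev, inv_inv] at h3
          exact hba h3
      irrefl := fun a ha => by
        apply h1
        have h2 : a⁻¹ * a ∈ P := ha
        rwa [inv_mul_cancel] at h2
      trans := fun a b c hab hbc => by
        have h2 := hm _ hab _ hbc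
        show a⁻¹ * c ∈ P
        have h3 : a⁻¹ * b * (b⁻¹ * c) = a⁻¹ * c := by group
        rwa [h3] at h2 }
  refine ⟨linearOrderOfSTO r, fun a b c hbc => ?_⟩
  show (a * b)⁻¹ * (a * c) ∈ P
  have h2 : (a * b)⁻¹ * (a * c) = b⁻¹ * c := by group
  rw [h2]
  exact hbc

theorem leftOrderable_of_locInd {G : Type} [Group G] (h : LocInd G) : LeftOrderable G := by
  classical
  have hex : ∀ F : Finset G, ∃ P : Set G, (∀ a ∈ P, ∀ b ∈ P, a * b ∈ P) ∧ (1 : G) ∉ P ∧
      ∀ g ∈ F, g ≠ 1 → g ∈ P ∨ g⁻¹ ∈ P := by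
    intro F
    obtain ⟨P, h1, h2, _, h3⟩ := lo_fin h (F.erase 1).card (F.erase 1) le_rfl (Finset.notMem_erase _ _)
    exact ⟨P, h1, h2, fun g hg hg1 => h3 g (Finset.mem_erase.2 ⟨hg1, hg⟩)⟩
  choose P hm h1 ht using hex
  let U : Ultrafilter (Finset G) := Ultrafilter.of Filter.atTop
  have hU : (U : Filter (Finset G)) ≤ Filter.atTop := Ultrafilter.of_le _
  refine leftOrderable_of_cone {g | ∀ᶠ F in (U : Filter (Finset G)), g ∈ P F} ?_ ?_ ?_
  · intro a ha b hb
    show ∀ᶠ F in (U : Filter (Finset G)), a * b ∈ P F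
    have ha' : ∀ᶠ F in (U : Filter (Finset G)), a ∈ P F := ha
    have hb' : ∀ᶠ F in (U : Filter (Finset G)), b ∈ P F := hb
    filter_upwards [ha', hb'] with F h2 h3
    exact hm F a h2 b h3
  · intro h2
    have h2' : ∀ᶠ F in (U : Filter (Finset G)), (1 : G) ∈ P F := h2
    obtain ⟨F, hF⟩ := h2'.exists
    exact h1 F hF
  · intro g hg
    have h2 : ∀ᶠ F in (U : Filter (Finset G)), g ∈ P F ∨ g⁻¹ ∈ P F := by
      have h3 : ∀ᶠ F in (Filter.atTop : Filter (Finset G)), g ∈ F := by
        filter_upwards [Filter.eventually_ge_atTop ({g} : Finset G)] with F hF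
        exact hF (Finset.mem_singleton_self g)
      filter_upwards [hU h3] with F hF
      exact ht F g hF hg
    exact Ultrafilter.eventually_or.1 h2

end Pool.Agent.MelF
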