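import Pool.Agent.MelF.Def
import Pool.Agent.MelF.LO
import Pool.Agent.L2Coh.Mat

/-!
# An element independent of the relator, by von Neumann dimension

As Indep.lean over the rational numbers, for locally indicable `H`, without a residual hypothesis: `H` is left orderable, so a
nonzero element of `ℤ[H]` has no kernel on `ℓ²(H)`, and the map `ℓ²(H)^k → ℓ²(H)^(n+1)`,
`z ↦ ((∑ m, z_m b_m ω_{m j})_j, - ∑ m, z_m a_m)`, is injective (`triangular_bound`, L2Coh/Mat).
-/

open Finset

namespace Pool.Agent.MelF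

open Pool.Agent.MelD (fox coc fox_mul fox_of coc_inv coc_mul coc_unique coc_eq_sum coc_of)
open Pool.Agent.MelL (LocInd)
open Pool.Agent.L2Coh (LeftOrderable RankGap triangular_bound rankGap_of_leftOrderable)

section

variable {H : Type} [Group H]

/-- Right translations of functions. -/
def rt (H : Type) [Group H] : H →* (Module.End ℝ (H → ℝ))ᵐᵒᵖ where
  toFun h := MulOpposite.op (LinearMap.funLeft ℝ ℝ fun g => g * h⁻¹)
  map_one' := by
    apply MulOpposite.unop_injective
    refine LinearMap.ext fun x => ?_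
    funext g
    show x (g * 1⁻¹) = x g
    rw [inv_one, mul_one]
  map_mul' h h' := by
    apply MulOpposite.unop_injective
    refine LinearMap.ext fun x => ?_
    funext g
    show x (g * (h * h')⁻¹) = x (g * h'⁻¹ * h⁻¹)
    rw [mul_inv_rev, mul_assoc]

/-- Right convolution of functions with elements of the rational group ring. -/
noncomputable def cv (x : H → ℝ) (a : MonoidAlgebra ℚ H) : H → ℝ :=
  MulOpposite.unop (MonoidAlgebra.lift ℚ ((Module.End ℝ (H → ℝ))ᵐᵒᵖ) H (rt H) a) x

theorem cv_apply (x : H → ℝ) (a : MonoidAlgebra ℚ H) (g : H) :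
    cv x a g = a.coeff.sum fun h q => (q : ℝ) * x (g * h⁻¹) := by
  unfold cv
  rw [MonoidAlgebra.lift_apply]
  unfold Finsupp.sum
  rw [Finset.unop_sum, LinearMap.sum_apply, Finset.sum_apply]
  refine sum_congr rfl fun h _ => ?_
  show (a.coeff h) • (x (g * h⁻¹)) = _
  rw [Rat.smul_def]

theorem cv_mul (x : H → ℝ) (a b : MonoidAlgebra ℚ H) : cv x (a * b) = cv (cv x a) b := by
  unfold cv
  rw [map_mul, MulOpposite.unop_mul]
  rfl

theorem cv_add (x : H → ℝ) (a b : MonoidAlgebra ℚ H) : cv x (a + b) = cv x a + cv x b := by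
  unfold cv
  rw [map_add]
  rfl

theorem cv_zero (x : H → ℝ) : cv x 0 = 0 := by
  unfold cv
  rw [map_zero]
  rfl

theorem cv_one (x : H → ℝ) : cv x 1 = x := by
  unfold cv
  rw [map_one]
  rfl

theorem cv_sum {ι : Type} (x : H → ℝ) (s : Finset ι) (a : ι → MonoidAlgebra ℚ H) :
    cv x (∑ i ∈ s, a i) = ∑ i ∈ s, cv x (a i) := by
  classical
  induction s using Finset.induction_on with
  | empty => rw [sum_empty, sum_empty, cv_zero]
  | insert i s hi ih => rw [sum_insert hi, sum_insert hi, cv_add, ih]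

theorem sum_cv {ι : Type} (s : Finset ι) (x : ι → H → ℝ) (a : MonoidAlgebra ℚ H) :
    ∑ i ∈ s, cv (x i) a = cv (∑ i ∈ s, x i) a := by
  unfold cv
  rw [map_sum]

theorem zero_cv (a : MonoidAlgebra ℚ H) : cv 0 a = 0 := by
  unfold cv
  rw [map_zero]

omit [Group H] in
/-- Common denominators. -/
theorem exists_den {ι : Type} [Fintype ι] (c : ι → MonoidAlgebra ℚ H) :
    ∃ (d : ℕ) (c' : ι → (H →₀ ℤ)), d ≠ 0 ∧ ∀ i h, ((c' i h : ℤ) : ℚ) = (d : ℚ) * (c i).coeff h := by
  classical
  obtain ⟨d, hd⟩ : ∃ d : ℕ, d = ∏ i, ∏ h ∈ (c i).coeff.support, ((c i).coeff h).den := ⟨_, rfl⟩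
  refine ⟨d, fun i => Finsupp.mapRange (fun q : ℚ => ((d : ℚ) * q).num) (by simp) (c i).coeff, ?_, ?_⟩
  · rw [hd]
    refine prod_ne_zero_iff.mpr fun i _ => prod_ne_zero_iff.mpr fun h _ => Rat.den_nz _
  · intro i h
    rw [Finsupp.mapRange_apply]
    by_cases h0 : (c i).coeff h = 0
    · rw [h0]; simp
    · have h1 : ((c i).coeff h).den ∣ d := by
        rw [hd]
        refine (dvd_prod_of_mem (fun h => ((c i).coeff h).den) (Finsupp.mem_support_iff.mpr h0)).trans ?_
        exact dvd_prod_of_mem (fun i => ∏ h ∈ (c i).coeff.support, ((c i).coeff h).den) (mem_univ i)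
      obtain ⟨e, he⟩ := h1
      have h2 : (d : ℚ) * (c i).coeff h = (((e : ℤ) * ((c i).coeff h).num : ℤ) : ℚ) := by
        have h3 := Rat.mul_den_eq_num ((c i).coeff h)
        rw [he]
        push_cast
        rw [← h3]
        ring
      rw [h2, Rat.num_intCast]

theorem sum_den {d : ℕ} {c : MonoidAlgebra ℚ H} {c' : H →₀ ℤ}
    (h : ∀ h, ((c' h : ℤ) : ℚ) = (d : ℚ) * c.coeff h) (x : H → ℝ) (g : H) :
    (c'.sum fun h n => (n : ℝ) * x (g * h⁻¹)) = (d : ℝ) * cv x c g := by
  classical
  rw [cv_apply]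
  have h1 : (c'.sum fun h n => (n : ℝ) * x (g * h⁻¹)) =
      ∑ h ∈ c'.support ∪ c.coeff.support, (c' h : ℝ) * x (g * h⁻¹) := by
    refine Finsupp.sum_of_support_subset _ subset_union_left _ fun h _ => ?_
    simp
  have h2 : (c.coeff.sum fun h q => (q : ℝ) * x (g * h⁻¹)) =
      ∑ h ∈ c'.support ∪ c.coeff.support, (c.coeff h : ℝ) * x (g * h⁻¹) := by
    refine Finsupp.sum_of_support_subset _ subset_union_right _ fun h _ => ?_
    simp
  rw [h1, h2, mul_sum]
  refine sum_congr rfl fun t _ => ?_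
  have h3 : ((c' t : ℤ) : ℝ) = (d : ℝ) * ((c.coeff t : ℚ) : ℝ) := by
    have h4 := congrArg (fun q : ℚ => (q : ℝ)) (h t)
    push_cast at h4
    exact h4
  rw [h3, mul_assoc]

end

private theorem auxL {A : Type} [AddCommGroup A] {x e s : A} (h : x + (e - s) = 0) : e = s - x := by
  rw [← sub_eq_zero, ← h]
  abel

/-- The chain rule. -/
theorem fox_chainL {H : Type} [Group H] {k n : ℕ} {K : Type} [Field K] (f : FreeGroup (Fin k) →* MonoidAlgebra K H)
    (f' : FreeGroup (Fin n) →* MonoidAlgebra K H) (Q : Fin n → FreeGroup (Fin k))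
    (hf : ∀ u, f (FreeGroup.lift Q u) = f' u) (j : Fin k) (u : FreeGroup (Fin n)) :
    fox f j (FreeGroup.lift Q u) = ∑ i, fox f' i u * fox f j (Q i) := by
  have h := coc_unique f' (fun u => fox f j (FreeGroup.lift Q u)) (coc f' fun i => fox f j (Q i)) ?_
    (coc_mul f' _) ?_ u
  · rw [coc_eq_sum] at h
    exact h
  · intro a b
    show fox f j (FreeGroup.lift Q (a * b)) = fox f j (FreeGroup.lift Q a) + f' a • fox f j (FreeGroup.lift Q b)
    rw [map_mul, fox_mul, hf, smul_eq_mul]
  · intro i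
    show fox f j (FreeGroup.lift Q (FreeGroup.of i)) = _
    rw [FreeGroup.lift_apply_of, coc_of]

theorem exists_indL {N H : Type} [Group N] [Group H] {k : ℕ} (X : RetH N H k) (hl : LocInd H)
    {n : ℕ} (h : Fin n → H) (hgen : Subgroup.closure (Set.range h) = ⊤) (hk : n + 2 ≤ k)
    (hD : ∃ m, X.D ℚ m ≠ 0) : ∃ w, X.ρ (X.q w) = 1 ∧ X.Ind ℚ w := by
  classical
  have hdom : NoZeroDivisors (MonoidAlgebra ℚ H) := Pool.Agent.MelL.noZero_of_locInd hl ℚ
  by_contra hcon
  obtain ⟨m₀, hm₀⟩ := hD
  choose Q hQ using fun i => X.hq (X.s (h i))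
  obtain ⟨y, hyd⟩ : ∃ y : FreeGroup (Fin n) →* H, y = FreeGroup.lift h := ⟨_, rfl⟩
  have hy : Function.Surjective y := by
    rw [hyd, ← MonoidHom.range_eq_top, FreeGroup.range_lift_eq_closure, hgen]
  choose W hW using fun m => hy (X.ρ (X.q (FreeGroup.of m)))
  have hρQ : ∀ u, X.ρ (X.q (FreeGroup.lift Q u)) = y u := by
    intro u
    have h1 : (X.ρ.comp X.q).comp (FreeGroup.lift Q) = y := by
      apply FreeGroup.ext_hom
      intro i
      show X.ρ (X.q (FreeGroup.lift Q (FreeGroup.of i))) = y (FreeGroup.of i)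
      rw [FreeGroup.lift_apply_of, hQ, X.hs, hyd, FreeGroup.lift_apply_of]
    exact DFunLike.congr_fun h1 u
  obtain ⟨P, hPd⟩ : ∃ P : Fin k → FreeGroup (Fin k), P = fun m => FreeGroup.lift Q (W m) := ⟨_, rfl⟩
  obtain ⟨f', hf'd⟩ : ∃ f' : FreeGroup (Fin n) →* MonoidAlgebra ℚ H, f' = (MonoidAlgebra.of ℚ H).comp y :=
    ⟨_, rfl⟩
  have hff : ∀ u, X.f ℚ (FreeGroup.lift Q u) = f' u := by
    intro u
    rw [X.f_apply, hρQ, hf'd]
    rfl
  have hP : ∀ m, X.ρ (X.q (P m)) = X.ρ (X.q (FreeGroup.of m)) := by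
    intro m
    rw [hPd]
    show X.ρ (X.q (FreeGroup.lift Q (W m))) = _
    rw [hρQ, hW]
  have hw : ∀ m, X.ρ (X.q (FreeGroup.of m * (P m)⁻¹)) = 1 := by
    intro m
    rw [map_mul, map_mul, map_inv, map_inv, hP, mul_inv_cancel]
  have hfw : ∀ m j, fox (X.f ℚ) j (FreeGroup.of m * (P m)⁻¹) =
      (if m = j then 1 else 0) - ∑ i, fox f' i (W m) * fox (X.f ℚ) j (Q i) := by
    intro m j
    have h1 : fox (X.f ℚ) j (P m)⁻¹ = - (X.f ℚ (P m)⁻¹ • fox (X.f ℚ) j (P m)) := coc_inv _ _ _
    have h2 : fox (X.f ℚ) j (P m) = ∑ i, fox f' i (W m) * fox (X.f ℚ) j (Q i) := by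
      rw [hPd]
      exact fox_chainL (X.f ℚ) f' Q hff j (W m)
    have h3 : X.f ℚ (FreeGroup.of m) * X.f ℚ (P m)⁻¹ = 1 := by
      rw [← map_mul, X.f_apply, hw]
      rfl
    rw [fox_mul, fox_of, h1, smul_eq_mul, mul_neg, ← mul_assoc, h3, one_mul, h2, sub_eq_add_neg]
  have hex : ∀ m, ∃ a b : MonoidAlgebra ℚ H,
      (∀ j, a * X.D ℚ j + b * fox (X.f ℚ) j (FreeGroup.of m * (P m)⁻¹) = 0) ∧ ¬ (a = 0 ∧ b = 0) := by
    intro m
    by_contra hm
    refine hcon ⟨_, hw m, fun a b hab => ?_⟩
    by_contra h0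
    exact hm ⟨a, b, hab, h0⟩
  choose a b hab hne using hex
  have hb : ∀ m, b m ≠ 0 := by
    intro m h0
    have h1 := hab m m₀
    rw [h0, zero_mul, add_zero] at h1
    rcases mul_eq_zero.mp h1 with h2 | h2
    · exact hne m ⟨h2, h0⟩
    · exact hm₀ h2
  -- the entries
  obtain ⟨c, hcn, hcs⟩ : ∃ c : Fin k → Option (Fin n) → MonoidAlgebra ℚ H,
      (∀ m, c m none = - a m) ∧ ∀ m t, c m (some t) = b m * fox f' t (W m) :=
    ⟨fun m j => j.elim (- a m) fun t => b m * fox f' t (W m), fun _ => rfl, fun _ _ => rfl⟩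
  have hrel : ∀ m j, b m * (if m = j then 1 else 0) =
      ∑ t, c m (some t) * fox (X.f ℚ) j (Q t) + c m none * X.D ℚ j := by
    intro m j
    have h3 := hab m j
    rw [hfw, mul_sub, mul_sum] at h3
    have h4 := auxL h3
    rw [h4, hcn, neg_mul, ← sub_eq_add_neg]
    congr 1
    refine sum_congr rfl fun t _ => ?_
    rw [hcs, mul_assoc]
  obtain ⟨d, c', hd, hc'⟩ := exists_den fun p : Fin k × Option (Fin n) => c p.1 p.2
  obtain ⟨e, b', he, hb'⟩ := exists_den b
  have hkey := triangular_bound (J := Option (Fin n)) (ε := 1) le_rfl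
    (rankGap_of_leftOrderable (leftOrderable_of_locInd hl)) k
    (fun m => ∑ j, Finsupp.mapDomain (fun h => (h, j)) (c' (m, j))) b' ?_ ?_
  · rw [mul_one, Fintype.card_option, Fintype.card_fin] at hkey
    have : k ≤ n + 1 := by exact_mod_cast hkey
    omega
  · intro m h0
    apply hb m
    ext t
    have h1 := hb' m t
    rw [h0, Finsupp.zero_apply, Int.cast_zero] at h1
    have h2 : (e : ℚ) ≠ 0 := by exact_mod_cast he
    show (b m).coeff t = 0
    exact (mul_eq_zero.mp h1.symm).resolve_left h2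
  · intro x j _ _ hx g
    rw [sum_den (hb' j)]
    have hx0 : ∀ t, ∑ m, cv (x m) (c m t) = 0 := by
      intro t
      funext g
      have h1 := hx g t
      have h2 : ∀ m, ((∑ j, Finsupp.mapDomain (fun h => (h, j)) (c' (m, j))).sum fun p n =>
          if p.2 = t then (n : ℝ) * x m (g * p.1⁻¹) else 0) = (d : ℝ) * cv (x m) (c m t) g := by
        intro m
        rw [← Finsupp.sum_finsetSum_index]
        · rw [sum_eq_single t]
          · rw [Finsupp.sum_mapDomain_index]
            · simp only [if_true]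
              exact sum_den (fun h => hc' (m, t) h) (x m) g
            · intro p
              simp
            · intro p q r
              split_ifs
              · push_cast
                ring
              · rw [add_zero]
          · intro i _ hi
            rw [Finsupp.sum_mapDomain_index]
            · simp only [if_neg hi, Finsupp.sum_fun_zero]
            · intro p
              simp
            · intro p q r
              split_ifs
              · push_cast
                ring
              · rw [add_zero]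
          · intro h'
            exact absurd (mem_univ _) h'
        · intro p
          simp
        · intro p q r
          split_ifs
          · push_cast
            ring
          · rw [add_zero]
      simp only [h2] at h1
      rw [← mul_sum] at h1
      have h3 : (d : ℝ) ≠ 0 := by exact_mod_cast hd
      rw [Finset.sum_apply]
      exact (mul_eq_zero.mp h1).resolve_left h3
    have h1 : cv (x j) (b j) = 0 := by
      have h2 : ∑ m, cv (x m) (b m * (if m = j then 1 else 0)) = cv (x j) (b j) := by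
        rw [sum_eq_single j]
        · rw [if_pos rfl, mul_one]
        · intro m _ hmj
          rw [if_neg hmj, mul_zero, cv_zero]
        · intro h'
          exact absurd (mem_univ j) h'
      rw [← h2]
      simp only [hrel, cv_add, cv_sum, sum_add_distrib, cv_mul]
      rw [sum_comm]
      simp only [sum_cv, hx0, zero_cv, sum_const_zero, add_zero]
    rw [h1, Pi.zero_apply, mul_zero]

end Pool.Agent.MelF
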