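import Pool.Agent.MelD.Fox
import Pool.Agent.MelF.IndepL

/-!
# Generators of one-relator groups which are independent of a subgroup, I

* `fox_exact`: the relation module: if `∑ j, c_j (x_j - 1) = 0` in `K[N]`, `N = ⟨x_1 .. x_k | r⟩`, then `c` is a left multiple
  of the vector of the Fox derivatives of `r`.
* `rank_bound`: the rank argument in `ℓ²(N)`.
* `exists_gen`: `H` generated by `n ≤ k - 2` elements `h_t` of the locally indicable group `N`: there is `m` such that
  `b (x_m - 1) = ∑ t, c_t (h_t - 1)` implies `b = 0`.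
-/

open Finset

namespace Pool.Agent.MelF

open Pool.Agent.MelD (fox coc fox_mul fox_of coc_inv coc_mul coc_one fundamental)
open Pool.Agent.MelL (LocInd)
open Pool.Agent.L2Coh (triangular_bound rankGap_of_leftOrderable)

section

variable {N : Type} [Group N] {k : ℕ} {K : Type} [Field K]

/-- The homomorphism of the free group to the group ring. -/
noncomputable def gr (K : Type) [Field K] (q : FreeGroup (Fin k) →* N) : FreeGroup (Fin k) →* MonoidAlgebra K N :=
  (MonoidAlgebra.of K N).comp q

theorem gr_apply (q : FreeGroup (Fin k) →* N) (w : FreeGroup (Fin k)) :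
    gr K q w = MonoidAlgebra.single (q w) (1 : K) := rfl

/-- The vector of the Fox derivatives. -/
noncomputable def fv (K : Type) [Field K] (q : FreeGroup (Fin k) →* N) (w : FreeGroup (Fin k)) :
    Fin k → MonoidAlgebra K N := fun j => fox (gr K q) j w

theorem fv_mul (q : FreeGroup (Fin k) →* N) (u w : FreeGroup (Fin k)) :
    fv K q (u * w) = fv K q u + gr K q u • fv K q w := by
  funext j
  exact fox_mul _ _ _ _

theorem fv_one (q : FreeGroup (Fin k) →* N) : fv K q 1 = 0 := by
  funext j
  exact coc_one _ _

theorem fv_inv (q : FreeGroup (Fin k) →* N) (w : FreeGroup (Fin k)) :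
    fv K q w⁻¹ = - (gr K q w⁻¹ • fv K q w) := by
  funext j
  exact coc_inv _ _ _

theorem fv_of (q : FreeGroup (Fin k) →* N) (j : Fin k) :
    fv K q (FreeGroup.of j) = Pi.single j 1 := by
  funext i
  show fox (gr K q) i (FreeGroup.of j) = _
  rw [fox_of, Pi.single_apply]
  simp only [eq_comm]

theorem gr_mul_inv (q : FreeGroup (Fin k) →* N) (w : FreeGroup (Fin k)) : gr K q w * gr K q w⁻¹ = 1 := by
  rw [← map_mul, mul_inv_cancel, map_one]

theorem fv_rel (q : FreeGroup (Fin k) →* N) (r : FreeGroup (Fin k)) (hr : q.ker = Subgroup.normalClosure {r})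
    (w : FreeGroup (Fin k)) (hw : q w = 1) : ∃ a : MonoidAlgebra K N, fv K q w = a • fv K q r := by
  have hf : ∀ g : FreeGroup (Fin k), q g = 1 → gr K q g = 1 := by
    intro g hg
    rw [gr_apply, hg]
    rfl
  let S : Subgroup (FreeGroup (Fin k)) :=
    { carrier := {g | q g = 1 ∧ ∃ a : MonoidAlgebra K N, fv K q g = a • fv K q r}
      one_mem' := ⟨map_one _, 0, by rw [fv_one, zero_smul]⟩
      mul_mem' := by
        rintro a b ⟨ha, x, hx⟩ ⟨hb, y, hy⟩
        refine ⟨by rw [map_mul, ha, hb, one_mul], x + y, ?_⟩
        rw [fv_mul, hf a ha, hx, hy, one_smul, add_smul]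
      inv_mem' := by
        rintro a ⟨ha, x, hx⟩
        refine ⟨by rw [map_inv, ha, inv_one], -x, ?_⟩
        rw [fv_inv, hf a⁻¹ (by rw [map_inv, ha, inv_one]), hx, one_smul, neg_smul] }
  have hS : S.Normal := by
    refine ⟨fun a ha g => ⟨?_, ?_⟩⟩
    · rw [map_mul, map_mul, ha.1, mul_one, map_inv, mul_inv_cancel]
    · obtain ⟨x, hx⟩ := ha.2
      refine ⟨gr K q g * x, ?_⟩
      rw [fv_mul, fv_mul, hx, map_mul, hf a ha.1, mul_one, fv_inv, smul_neg, smul_smul, smul_smul, gr_mul_inv,
        one_smul]
      abel
  have hrS : r ∈ S := by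
    refine ⟨?_, 1, by rw [one_smul]⟩
    have : r ∈ q.ker := by
      rw [hr]
      exact Subgroup.subset_normalClosure (Set.mem_singleton _)
    exact this
  have hle : Subgroup.normalClosure {r} ≤ S :=
    Subgroup.normalClosure_le_normal (Set.singleton_subset_iff.2 hrS)
  have hn' : w ∈ Subgroup.normalClosure {r} := by
    rw [← hr]
    exact hw
  exact (hle hn').2

/-- The relation module of a one-relator group is generated by the Fox derivatives of the relator. -/
theorem fox_exact (q : FreeGroup (Fin k) →* N) (hq : Function.Surjective q) (r : FreeGroup (Fin k))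
    (hr : q.ker = Subgroup.normalClosure {r}) (c : Fin k → MonoidAlgebra K N)
    (hc : ∑ j, c j * (MonoidAlgebra.single (q (FreeGroup.of j)) (1 : K) - 1) = 0) :
    ∃ a : MonoidAlgebra K N, c = a • fv K q r := by
  classical
  choose σ hσ using hq
  let Λ : MonoidAlgebra K N →ₗ[K] (Fin k → MonoidAlgebra K N) :=
    (Finsupp.lsum K fun g : N => (LinearMap.id : K →ₗ[K] K).smulRight (fv K q (σ g))).comp
      (MonoidAlgebra.coeffLinearEquiv K).toLinearMap
  have hΛ : ∀ (g : N) (s : K), Λ (MonoidAlgebra.single g s) = s • fv K q (σ g) := by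
    intro g s
    simp [Λ]
  let D : Submodule (MonoidAlgebra K N) (Fin k → MonoidAlgebra K N) := Submodule.span _ {fv K q r}
  have hD : ∀ v, v ∈ D ↔ ∃ a : MonoidAlgebra K N, v = a • fv K q r := by
    intro v
    rw [Submodule.mem_span_singleton]
    exact ⟨fun ⟨a, ha⟩ => ⟨a, ha.symm⟩, fun ⟨a, ha⟩ => ⟨a, ha.symm⟩⟩
  have key : ∀ (j : Fin k) (a : MonoidAlgebra K N),
      Pi.single j a + Λ a - Λ (a * MonoidAlgebra.single (q (FreeGroup.of j)) (1 : K)) ∈ D := by
    intro j a
    induction a using MonoidAlgebra.induction_linear with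
    | zero =>
      rw [zero_mul, map_zero, Pi.single_zero, add_zero, sub_zero]
      exact D.zero_mem
    | add a b ha hb =>
      have h1 := D.add_mem ha hb
      rw [add_mul, map_add, map_add, Pi.single_add]
      convert h1 using 1
      abel
    | single g s =>
      rw [MonoidAlgebra.single_mul_single, hΛ, hΛ, mul_one]
      obtain ⟨a, ha⟩ := fv_rel (K := K) q r hr (σ g * FreeGroup.of j * (σ (g * q (FreeGroup.of j)))⁻¹)
        (by rw [map_mul, map_mul, map_inv, hσ, hσ, mul_inv_cancel])
      have h2 : gr K q (σ g * FreeGroup.of j) * gr K q (σ (g * q (FreeGroup.of j)))⁻¹ = 1 := by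
        have h3 : gr K q (σ g * FreeGroup.of j) = gr K q (σ (g * q (FreeGroup.of j))) := by
          rw [gr_apply, gr_apply, map_mul, hσ, hσ]
        rw [h3, gr_mul_inv]
      rw [fv_mul, fv_mul, fv_of, fv_inv, smul_neg, smul_smul, h2, one_smul] at ha
      have h4 : Pi.single j (MonoidAlgebra.single g s) + s • fv K q (σ g) -
          s • fv K q (σ (g * q (FreeGroup.of j))) = (s • a) • fv K q r := by
        rw [smul_assoc, ← ha, gr_apply, hσ, smul_add, smul_add, smul_neg, ← sub_eq_add_neg]
        congr 1
        rw [add_comm]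
        congr 1
        funext i
        rw [Pi.smul_apply, Pi.smul_apply]
        by_cases hij : i = j
        · subst hij
          rw [Pi.single_eq_same, Pi.single_eq_same, smul_eq_mul, mul_one, MonoidAlgebra.smul_single, smul_eq_mul,
            mul_one]
        · rw [Pi.single_eq_of_ne hij, Pi.single_eq_of_ne hij, smul_zero, smul_zero]
      rw [h4, hD]
      exact ⟨_, rfl⟩
  have h1 : ∑ j, (Pi.single j (c j) + Λ (c j) - Λ (c j * MonoidAlgebra.single (q (FreeGroup.of j)) (1 : K))) = c := by
    rw [sum_sub_distrib, sum_add_distrib, Finset.univ_sum_single, add_sub_assoc, ← map_sum, ← map_sum, ← map_sub,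
      ← sum_sub_distrib]
    have h2 : ∑ j, (c j - c j * MonoidAlgebra.single (q (FreeGroup.of j)) (1 : K)) = 0 := by
      rw [← neg_eq_zero, ← hc, ← sum_neg_distrib]
      refine sum_congr rfl fun j _ => ?_
      rw [mul_sub, mul_one]
      abel
    rw [h2, map_zero, add_zero]
  rw [← hD, ← h1]
  exact D.sum_mem fun j _ => key j (c j)

end

/-- The rank argument. -/
theorem rank_bound {H : Type} [Group H] (hl : LocInd H) {k n : ℕ} (b : Fin k → MonoidAlgebra ℚ H)
    (hb : ∀ m, b m ≠ 0) (c : Fin k → Option (Fin n) → MonoidAlgebra ℚ H)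
    (E : Option (Fin n) → Fin k → MonoidAlgebra ℚ H)
    (hrel : ∀ m j, b m * (if m = j then 1 else 0) = ∑ t, c m t * E t j) : k ≤ n + 1 := by
  classical
  obtain ⟨d, c', hd, hc'⟩ := exists_den fun p : Fin k × Option (Fin n) => c p.1 p.2
  obtain ⟨e, b', he, hb'⟩ := exists_den b
  have hkey := triangular_bound (J := Option (Fin n)) (ε := 1) le_rfl
    (rankGap_of_leftOrderable (leftOrderable_of_locInd hl)) k
    (fun m => ∑ j, Finsupp.mapDomain (fun h => (h, j)) (c' (m, j))) b' ?_ ?_
  · rw [mul_one, Fintype.card_option, Fintype.card_fin] at hkey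
    exact_mod_cast hkey
  · intro m h0
    apply hb m
    ext t
    have h1 := hb' m t
    rw [h0, Finsupp.zero_apply, Int.cast_zero] at h1
    have h2 : (e : ℚ) ≠ 0 := by exact_mod_cast he
    show (b m).coeff t = 0
    exact (mul_eq_zero.mp h1.symm).resolve_left h2
  · intro x j _ _ hx g
    rw [sum_den (hb' j)]
    have hx0 : ∀ t, ∑ m, cv (x m) (c m t) = 0 := by
      intro t
      funext g
      have h1 := hx g t
      have h2 : ∀ m, ((∑ j, Finsupp.mapDomain (fun h => (h, j)) (c' (m, j))).sum fun p n =>
          if p.2 = t then (n : ℝ) * x m (g * p.1⁻¹) else 0) = (d : ℝ) * cv (x m) (c m t) g := by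
        intro m
        rw [← Finsupp.sum_finsetSum_index]
        · rw [sum_eq_single t]
          · rw [Finsupp.sum_mapDomain_index]
            · simp only [if_true]
              exact sum_den (fun h => hc' (m, t) h) (x m) g
            · intro p
              simp
            · intro p q r
              split_ifs
              · push_cast
                ring
              · rw [add_zero]
          · intro i _ hi
            rw [Finsupp.sum_mapDomain_index]
            · simp only [if_neg hi, Finsupp.sum_fun_zero]
            · intro p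
              simp
            · intro p q r
              split_ifs
              · push_cast
                ring
              · rw [add_zero]
          · intro h'
            exact absurd (mem_univ _) h'
        · intro p
          simp
        · intro p q r
          split_ifs
          · push_cast
            ring
          · rw [add_zero]
      simp only [h2] at h1
      rw [← mul_sum] at h1
      have h3 : (d : ℝ) ≠ 0 := by exact_mod_cast hd
      rw [Finset.sum_apply]
      exact (mul_eq_zero.mp h1).resolve_left h3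
    have h1 : cv (x j) (b j) = 0 := by
      have h2 : ∑ m, cv (x m) (b m * (if m = j then 1 else 0)) = cv (x j) (b j) := by
        rw [sum_eq_single j]
        · rw [if_pos rfl, mul_one]
        · intro m _ hmj
          rw [if_neg hmj, mul_zero, cv_zero]
        · intro h'
          exact absurd (mem_univ j) h'
      rw [← h2]
      simp only [hrel, cv_sum, cv_mul]
      rw [sum_comm]
      simp only [sum_cv, hx0, zero_cv, sum_const_zero]
    rw [h1, Pi.zero_apply, mul_zero]

/-- A generator which is independent of a subgroup with few generators. -/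
theorem exists_gen {N : Type} [Group N] {k : ℕ} (q : FreeGroup (Fin k) →* N) (hq : Function.Surjective q)
    (r : FreeGroup (Fin k)) (hr : q.ker = Subgroup.normalClosure {r}) (hl : LocInd N) {n : ℕ} (h : Fin n → N)
    (hk : n + 2 ≤ k) : ∃ m : Fin k, ∀ (b : MonoidAlgebra ℚ N) (c : Fin n → MonoidAlgebra ℚ N),
      b * (MonoidAlgebra.single (q (FreeGroup.of m)) (1 : ℚ) - 1) =
        ∑ t, c t * (MonoidAlgebra.single (h t) (1 : ℚ) - 1) → b = 0 := by
  classical
  by_contra hcon
  have hex : ∀ m : Fin k, ∃ (b : MonoidAlgebra ℚ N) (c : Fin n → MonoidAlgebra ℚ N),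
      b * (MonoidAlgebra.single (q (FreeGroup.of m)) (1 : ℚ) - 1) =
        ∑ t, c t * (MonoidAlgebra.single (h t) (1 : ℚ) - 1) ∧ b ≠ 0 := by
    intro m
    by_contra hm
    refine hcon ⟨m, fun b c hbc => ?_⟩
    by_contra hb
    exact hm ⟨b, c, hbc, hb⟩
  choose b c hbc hb using hex
  choose Q hQ using fun t => hq (h t)
  have hfun : ∀ t, MonoidAlgebra.single (h t) (1 : ℚ) - 1 =
      ∑ j, fv ℚ q (Q t) j * (MonoidAlgebra.single (q (FreeGroup.of j)) (1 : ℚ) - 1) := by
    intro t
    have h1 := fundamental (gr ℚ q) (Q t)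
    rw [gr_apply, hQ] at h1
    exact h1
  have hrow : ∀ m, ∃ a : MonoidAlgebra ℚ N, (fun j => b m * (if m = j then 1 else 0) -
      ∑ t, c m t * fv ℚ q (Q t) j) = a • fv ℚ q r := by
    intro m
    apply fox_exact q hq r hr
    simp only [sub_mul, sum_sub_distrib]
    have h1 : ∑ j, b m * (if m = j then 1 else 0) * (MonoidAlgebra.single (q (FreeGroup.of j)) (1 : ℚ) - 1) =
        b m * (MonoidAlgebra.single (q (FreeGroup.of m)) (1 : ℚ) - 1) := by
      rw [sum_eq_single m]
      · rw [if_pos rfl, mul_one]
      · intro j _ hj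
        rw [if_neg hj.symm, mul_zero, zero_mul]
      · intro h'
        exact absurd (mem_univ m) h'
    rw [h1, hbc, sub_eq_zero]
    simp only [hfun, mul_sum, sum_mul]
    rw [sum_comm]
    refine sum_congr rfl fun j _ => sum_congr rfl fun t _ => ?_
    rw [mul_assoc]
  choose a ha using hrow
  have := rank_bound hl b hb (fun m t => t.elim (a m) (c m))
    (fun t j => t.elim (fv ℚ q r j) fun t => fv ℚ q (Q t) j) (by
      intro m j
      rw [Fintype.sum_option]
      have h1 := congrFun (ha m) j
      simp only [Pi.smul_apply, smul_eq_mul] at h1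
      rw [sub_eq_iff_eq_add] at h1
      exact h1)
  omega

end Pool.Agent.MelF
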