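import Pool.Agent.MelF.GenA

/-!
# Generators of one-relator groups which are independent of a subgroup, II

`A` a subgroup of `N`, `x ∈ N`, such that `b (x - 1) ∈ K[N] I_A` implies `b = 0`.  Then there is a function `f` on `N` with
`f (g a) = f g` for `a ∈ A` and `f (g x) = f g + 1` if `g = 1`, `f (g x) = f g` otherwise (`exists_pot`).  In the graph with
vertices `N / A` and edges `g : g A → g x A` the translates of `f` show that there are no reduced closed paths
(`not_mem_of_red`), so `A` and `x` generate the free product `A * ⟨x⟩` (`inj_of_pot`).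
-/

open Finset

namespace Pool.Agent.MelF

open Monoid (Coprod)
open scoped Classical

noncomputable section

variable {N : Type} [Group N]

/-- The left ideal generated by the augmentation ideal of `A`. -/
def LI (A : Subgroup N) : Submodule (MonoidAlgebra ℚ N) (MonoidAlgebra ℚ N) :=
  Submodule.span _ {v | ∃ a ∈ A, v = MonoidAlgebra.single a (1 : ℚ) - 1}

theorem exists_pot (A : Subgroup N) (x : N)
    (hx : ∀ b : MonoidAlgebra ℚ N, b * (MonoidAlgebra.single x (1 : ℚ) - 1) ∈ LI A → b = 0) :
    ∃ f : N → ℚ, (∀ g, ∀ a ∈ A, f (g * a) = f g) ∧ ∀ g, f (g * x) = f g + if g = 1 then 1 else 0 := by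
  classical
  let π : MonoidAlgebra ℚ N →ₗ[MonoidAlgebra ℚ N] (MonoidAlgebra ℚ N ⧸ LI A) := (LI A).mkQ
  let ψ : MonoidAlgebra ℚ N →ₗ[ℚ] (MonoidAlgebra ℚ N ⧸ LI A) :=
    (π.restrictScalars ℚ).comp (LinearMap.mulRight ℚ (MonoidAlgebra.single x (1 : ℚ) - 1))
  have hψ : LinearMap.ker ψ = ⊥ := by
    rw [LinearMap.ker_eq_bot']
    intro b hb
    apply hx
    have h1 : π (b * (MonoidAlgebra.single x (1 : ℚ) - 1)) = 0 := hb
    exact (Submodule.Quotient.mk_eq_zero _).mp h1
  obtain ⟨θ, hθ⟩ := LinearMap.exists_leftInverse_of_injective ψ hψ
  let ε : MonoidAlgebra ℚ N →ₗ[ℚ] ℚ := (Finsupp.lapply 1).comp (MonoidAlgebra.coeffLinearEquiv ℚ).toLinearMap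
  have hε : ∀ g : N, ε (MonoidAlgebra.single g 1) = if g = 1 then 1 else 0 := by
    intro g
    show (Finsupp.single g (1 : ℚ)) 1 = _
    rw [Finsupp.single_apply]
  let F : MonoidAlgebra ℚ N →ₗ[ℚ] ℚ := ε.comp (θ.comp (π.restrictScalars ℚ))
  have hF : ∀ v, F v = ε (θ (π v)) := fun _ => rfl
  have hF1 : ∀ b : MonoidAlgebra ℚ N, F (b * (MonoidAlgebra.single x (1 : ℚ) - 1)) = ε b := by
    intro b
    have h1 : θ (ψ b) = b := LinearMap.congr_fun hθ b
    exact congrArg ε h1
  have hF2 : ∀ v ∈ LI A, F v = 0 := by
    intro v hv
    have h1 : π v = 0 := (Submodule.Quotient.mk_eq_zero _).mpr hv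
    rw [hF, h1, map_zero, map_zero]
  refine ⟨fun g => F (MonoidAlgebra.single g 1), fun g a ha => ?_, fun g => ?_⟩
  · have h1 : MonoidAlgebra.single g (1 : ℚ) * (MonoidAlgebra.single a (1 : ℚ) - 1) ∈ LI A :=
      (LI A).smul_mem _ (Submodule.subset_span ⟨a, ha, rfl⟩)
    have h2 := hF2 _ h1
    rw [mul_sub, mul_one, MonoidAlgebra.single_mul_single, mul_one, map_sub, sub_eq_zero] at h2
    exact h2
  · have h2 := hF1 (MonoidAlgebra.single g 1)
    rw [hε, mul_sub, mul_one, MonoidAlgebra.single_mul_single, mul_one, map_sub, sub_eq_iff_eq_add'] at h2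
    exact h2

/-- `x` or its inverse. -/
def pw (x : N) (e : Bool) : N := if e then x else x⁻¹

/-- The product of a word. -/
def val (x : N) : List (Bool × N) → N
  | [] => 1
  | p :: l => pw x p.1 * p.2 * val x l

/-- Reduced words. -/
def Red : List (Bool × N) → Prop
  | [] => True
  | [_] => True
  | p :: p' :: l => (p.2 = 1 → p.1 = p'.1) ∧ Red (p' :: l)

theorem red_tail {p : Bool × N} {l : List (Bool × N)} (h : Red (p :: l)) : Red l := by
  cases l with
  | nil => exact trivial
  | cons p' l => exact h.2

theorem val_append (x : N) (l l' : List (Bool × N)) : val x (l ++ l') = val x l * val x l' := by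
  induction l with
  | nil => rw [List.nil_append, val, one_mul]
  | cons p l ih =>
    rw [List.cons_append, val, val, ih]
    simp only [mul_assoc]

theorem red_append {l l' : List (Bool × N)} (h : Red (l ++ l')) : Red l := by
  induction l with
  | nil => exact trivial
  | cons p l ih =>
    cases l with
    | nil => exact trivial
    | cons p' l => exact ⟨h.1, ih h.2⟩

theorem red_last {p p' : Bool × N} {l l' : List (Bool × N)} (h : Red (l ++ p :: p' :: l')) (h1 : p.2 = 1) :
    p.1 = p'.1 := by
  induction l with
  | nil => exact h.1 h1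
  | cons p l ih => exact ih (red_tail h)

/-- The label of the edge crossed by a letter. -/
def lab (x g : N) (e : Bool) : N := if e then g else g * x⁻¹

theorem pot_step {f : N → ℚ} {x : N} (hx : ∀ g, f (g * x) = f g + if g = 1 then 1 else 0) (g : N) (e : Bool) :
    f (g * pw x e) = f g + if lab x g e = 1 then (if e then 1 else -1) else 0 := by
  cases e with
  | true =>
    show f (g * x) = f g + if g = 1 then 1 else 0
    exact hx g
  | false =>
    show f (g * x⁻¹) = f g + if g * x⁻¹ = 1 then -1 else 0
    have h1 := hx (g * x⁻¹)
    rw [inv_mul_cancel_right] at h1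
    rw [h1]
    split_ifs <;> ring

/-- There are no reduced closed paths. -/
theorem not_mem_of_red {A : Subgroup N} {x : N} {f : N → ℚ} (hA : ∀ g, ∀ a ∈ A, f (g * a) = f g)
    (hx : ∀ g, f (g * x) = f g + if g = 1 then 1 else 0) (n : ℕ) :
    ∀ l : List (Bool × N), l.length ≤ n → l ≠ [] → Red l → (∀ p ∈ l, p.2 ∈ A) → val x l ∉ A := by
  classical
  induction n with
  | zero =>
    intro l hl hne
    exact absurd (List.length_eq_zero_iff.mp (Nat.le_zero.mp hl)) hne
  | succ n ih =>
    intro l hl hne hred hlA hmem
    obtain ⟨⟨e, a⟩, l', rfl⟩ := List.exists_cons_of_ne_nil hne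
    have ha : a ∈ A := hlA (e, a) List.mem_cons_self
    -- the label of the first edge
    obtain ⟨u, hu⟩ : ∃ u, u = lab x 1 e := ⟨_, rfl⟩
    -- the value at the beginning and after the first letter
    have h1 : f (u⁻¹ * (pw x e * a)) = f u⁻¹ + if e then 1 else -1 := by
      rw [← mul_assoc, hA _ a ha, pot_step hx]
      have h2 : lab x u⁻¹ e = 1 := by
        rw [hu]
        cases e with
        | true => show (1 : N)⁻¹ = 1; exact inv_one
        | false => show (1 * x⁻¹)⁻¹ * x⁻¹ = 1; rw [one_mul, inv_inv, mul_inv_cancel]
      rw [if_pos h2]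
    have key : ∀ p t : List (Bool × N), l' = p ++ t → f (u⁻¹ * (pw x e * a * val x p)) =
        f (u⁻¹ * (pw x e * a)) := by
      intro p
      induction p using List.reverseRecOn with
      | nil =>
        intro t _
        rw [val, mul_one]
      | append_singleton p s ihp =>
        intro t ht
        have ht' : l' = p ++ (s :: t) := by rw [ht, List.append_assoc]; rfl
        have h3 := ihp _ ht'
        have hs : s.2 ∈ A := hlA s (by rw [ht']; simp)
        have hpA : ∀ z ∈ p, z.2 ∈ A := fun z hz => hlA z (by rw [ht']; simp [hz])
        obtain ⟨g, hg⟩ : ∃ g, g = u⁻¹ * (pw x e * a * val x p) := ⟨_, rfl⟩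
        have h4 : u⁻¹ * (pw x e * a * val x (p ++ [s])) = g * pw x s.1 * s.2 := by
          rw [hg, val_append]
          show _ * (_ * (_ * (pw x s.1 * s.2 * 1))) = _
          rw [mul_one]
          simp only [mul_assoc]
        rw [h4, hA _ _ hs, pot_step hx, ← h3, ← hg]
        rw [← hg] at h3
        suffices h5 : lab x g s.1 ≠ 1 by rw [if_neg h5, add_zero]
        intro h5
        -- the path returns to the first edge
        by_cases hes : s.1 = e
        · -- same direction: the value before the letter is that at the beginning
          have h6 : g = u⁻¹ := by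
            rw [hes] at h5
            rw [hu]
            cases e with
            | true =>
              have : g = 1 := h5
              rw [this]
              show (1 : N) = (1 : N)⁻¹
              rw [inv_one]
            | false =>
              have : g * x⁻¹ = 1 := h5
              show g = (1 * x⁻¹)⁻¹
              rw [one_mul, inv_inv]
              exact mul_inv_eq_one.mp this
          rw [h6, h1] at h3
          cases e with
          | true => simp at h3
          | false => simp at h3
        · -- opposite direction: the path between is closed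
          have h6 : u⁻¹ * pw x e = g := by
            rw [hu]
            cases e with
            | true =>
              have hs1 : s.1 = false := by simpa using hes
              rw [hs1] at h5
              have : g * x⁻¹ = 1 := h5
              show (1 : N)⁻¹ * x = g
              rw [inv_one, one_mul]
              exact (mul_inv_eq_one.mp this).symm
            | false =>
              have hs1 : s.1 = true := by simpa using hes
              rw [hs1] at h5
              have : g = 1 := h5
              show (1 * x⁻¹)⁻¹ * x⁻¹ = g
              rw [this, one_mul, inv_inv, mul_inv_cancel]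
          have h7 : a * val x p = 1 := by
            rw [hg, ← mul_assoc, ← mul_assoc, mul_assoc _ a] at h6
            exact (mul_eq_left.mp h6.symm)
          have h8 : val x p ∈ A := by
            rw [← inv_eq_of_mul_eq_one_right h7]
            exact A.inv_mem ha
          by_cases hp : p = []
          · subst hp
            rw [val, mul_one] at h7
            rw [ht'] at hred
            have h9 : ((e, a) : Bool × N).1 = s.1 := red_last (l := []) (l' := t) hred h7
            exact hes h9.symm
          · refine ih p ?_ hp ?_ hpA h8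
            · rw [ht'] at hl
              simp only [List.length_cons, List.length_append] at hl
              omega
            · have h9 := red_tail hred
              rw [ht'] at h9
              exact red_append h9
    have h2 := key l' [] (List.append_nil l').symm
    have h3 : pw x e * a * val x l' ∈ A := hmem
    rw [hA _ _ h3, h1] at h2
    cases e with
    | true => simp at h2
    | false => simp at h2

/-- Normal forms in `A * ℤ`. -/
theorem cop_nf (A : Subgroup N) (v : Coprod A (Multiplicative ℤ)) :
    ∃ (a : A) (l : List (Bool × A)), Red l ∧ v = Coprod.inl a *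
      (l.map fun p => Coprod.inr (Multiplicative.ofAdd (if p.1 then (1 : ℤ) else -1)) * Coprod.inl p.2).prod := by
  classical
  let W : List (Bool × A) → Coprod A (Multiplicative ℤ) := fun l =>
    (l.map fun p => Coprod.inr (Multiplicative.ofAdd (if p.1 then (1 : ℤ) else -1)) * Coprod.inl p.2).prod
  let T : Bool → Coprod A (Multiplicative ℤ) := fun e =>
    Coprod.inr (Multiplicative.ofAdd (if e then (1 : ℤ) else -1))
  have hW : ∀ p l, W (p :: l) = T p.1 * Coprod.inl p.2 * W l := by
    intro p l
    simp only [W, T, List.map_cons, List.prod_cons]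
  have hT : ∀ e, T e * T (!e) = 1 := by
    intro e
    cases e <;> simp [T]
  let NF : Coprod A (Multiplicative ℤ) → Prop := fun v => ∃ (a : A) (l : List (Bool × A)), Red l ∧
    v = Coprod.inl a * W l
  have hstep : ∀ e v, NF v → NF (T e * v) := by
    rintro e v ⟨a, l, hl, rfl⟩
    by_cases hc : a = 1 ∧ ∃ p l', l = p :: l' ∧ p.1 ≠ e
    · obtain ⟨ha, p, l', rfl, hp⟩ := hc
      refine ⟨p.2, l', red_tail hl, ?_⟩
      have hp' : p.1 = !e := by
        cases e <;> cases h : p.1 <;> simp_all
      rw [ha, map_one, one_mul, hW, hp', ← mul_assoc, ← mul_assoc, hT, one_mul]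
    · refine ⟨1, (e, a) :: l, ?_, ?_⟩
      · cases l with
        | nil => exact trivial
        | cons p l =>
          refine ⟨fun ha => ?_, hl⟩
          by_contra h
          exact hc ⟨ha, p, l, rfl, fun h' => h h'.symm⟩
      · rw [map_one, one_mul, hW, mul_assoc]
  have hinr : ∀ (n : Multiplicative ℤ) v, NF v → NF (Coprod.inr n * v) := by
    intro n
    obtain ⟨m, rfl⟩ := Multiplicative.ofAdd.surjective n
    induction m using Int.induction_on with
    | zero =>
      intro v hv
      rw [ofAdd_zero, map_one, one_mul]
      exact hv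
    | succ i ih =>
      intro v hv
      have h1 := hstep true _ (ih v hv)
      have h2 : T true * (Coprod.inr (Multiplicative.ofAdd (i : ℤ)) * v) =
          Coprod.inr (Multiplicative.ofAdd ((i : ℤ) + 1)) * v := by
        rw [← mul_assoc]
        show Coprod.inr (Multiplicative.ofAdd (1 : ℤ)) * _ * v = _
        rw [← map_mul, ← ofAdd_add, add_comm]
      rwa [h2] at h1
    | pred i ih =>
      intro v hv
      have h1 := hstep false _ (ih v hv)
      have h2 : T false * (Coprod.inr (Multiplicative.ofAdd (-(i : ℤ))) * v) =
          Coprod.inr (Multiplicative.ofAdd (-(i : ℤ) - 1)) * v := by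
        rw [← mul_assoc]
        show Coprod.inr (Multiplicative.ofAdd (-1 : ℤ)) * _ * v = _
        rw [← map_mul, ← ofAdd_add]
        congr 3
        ring
      rwa [h2] at h1
  show NF v
  induction v using Coprod.induction_on' with
  | one => exact ⟨1, [], trivial, by rw [map_one, one_mul]; rfl⟩
  | inl_mul a v ih =>
    obtain ⟨b, l, hl, rfl⟩ := ih
    exact ⟨a * b, l, hl, by rw [← mul_assoc, ← map_mul]⟩
  | inr_mul n v ih => exact hinr n v ih

theorem inj_of_pot {A : Subgroup N} {x : N} {f : N → ℚ} (hA : ∀ g, ∀ a ∈ A, f (g * a) = f g)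
    (hx : ∀ g, f (g * x) = f g + if g = 1 then 1 else 0) :
    Function.Injective (Coprod.lift A.subtype (zpowersHom N x)) := by
  classical
  rw [injective_iff_map_eq_one]
  intro v hv
  obtain ⟨a, l, hl, rfl⟩ := cop_nf A v
  have hval : ∀ l : List (Bool × A), Coprod.lift A.subtype (zpowersHom N x)
      (l.map fun p => Coprod.inr (Multiplicative.ofAdd (if p.1 then (1 : ℤ) else -1)) * Coprod.inl p.2).prod =
        val x (l.map fun p => (p.1, (p.2 : N))) := by
    intro l
    induction l with
    | nil => rw [List.map_nil, List.prod_nil, map_one]; rfl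
    | cons p l ih =>
      rw [List.map_cons, List.prod_cons, map_mul, ih, map_mul, Coprod.lift_apply_inr, Coprod.lift_apply_inl]
      show _ = pw x p.1 * (p.2 : N) * val x (l.map fun p => (p.1, (p.2 : N)))
      congr 2
      cases p.1 <;> simp [pw]
  have hred : Red (l.map fun p : Bool × A => (p.1, (p.2 : N))) := by
    clear hv
    induction l with
    | nil => exact trivial
    | cons p l ih =>
      cases l with
      | nil => exact trivial
      | cons p' l =>
        refine ⟨fun h => hl.1 (Subtype.ext h), ih hl.2⟩
  rw [map_mul, Coprod.lift_apply_inl, hval] at hv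
  have hmem : val x (l.map fun p : Bool × A => (p.1, (p.2 : N))) ∈ A := by
    rw [← inv_eq_of_mul_eq_one_right hv]
    exact A.inv_mem a.2
  have hnil : l = [] := by
    by_contra hne
    refine not_mem_of_red hA hx _ _ le_rfl ?_ hred ?_ hmem
    · intro h
      exact hne (List.map_eq_nil_iff.mp h)
    · intro p hp
      obtain ⟨z, _, rfl⟩ := List.mem_map.mp hp
      exact z.2.2
  subst hnil
  have ha : a = 1 := by
    apply Subtype.ext
    have h1 : (a : N) * 1 = 1 := hv
    rw [mul_one] at h1
    exact h1
  rw [ha, map_one, one_mul]
  rfl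

end

end Pool.Agent.MelF
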