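import Pool.Agent.MelG.Base
import Pool.Agent.MelS.DenseU

/-!
# Numbers of generators of subgroups of finite index (module F6)

`gens_ge`: `G` has `m ≤ 1` relators and `y` generators, and is not generated by two elements, so `y ≥ 3`.  By `pres_sub`
(MelS/DenseU) a subgroup `N` of index `j` has a presentation with `y j` generators and `m j + (j - 1)` relators, so there are at
least `2 ^ (y j - m j - (j - 1)) ≥ 2 ^ (j + 1)` homomorphisms `N → ZMod 2` (linear equations over the field `ZMod 2`); there
are at most `2 ^ k` if `N` is generated by `k` elements.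
-/

namespace Pool.Agent.MelF

open Pool.Agent.MelG (HasRel)

/-- Generators, relators and homomorphisms to the group of order two. -/
theorem card_le_of_pres {α B N : Type} [Finite α] [Finite B] [Group N] {k : ℕ} (r : B → FreeGroup α)
    (Φ : FreeGroup α →* N) (hΦ : Function.Surjective Φ) (hk : Φ.ker = Subgroup.normalClosure (Set.range r))
    (q : FreeGroup (Fin k) →* N) (hq : Function.Surjective q) : Nat.card α ≤ Nat.card B + k := by
  classical
  have w : ∀ i : Fin k, ∃ x, Φ x = q (FreeGroup.of i) := fun i => hΦ _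
  choose w hw using w
  let ζ : FreeGroup (Fin k) →* FreeGroup α := FreeGroup.lift w
  have hζ : Φ.comp ζ = q := by
    ext i
    show Φ (FreeGroup.lift w (FreeGroup.of i)) = _
    rw [FreeGroup.lift_apply_of, hw]
  have key : ∀ ψ : FreeGroup α →* Multiplicative (ZMod 2), (∀ b, ψ (r b) = 1) → (∀ i, ψ (w i) = 1) → ψ = 1 := by
    intro ψ h1 h2
    have h3 : Φ.ker ≤ ψ.ker := by
      rw [hk]
      refine Subgroup.normalClosure_le_normal ?_
      rintro _ ⟨b, rfl⟩
      exact h1 b
    have h4 : ψ.comp ζ = 1 := by
      ext i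
      show ψ (FreeGroup.lift w (FreeGroup.of i)) = 1
      rw [FreeGroup.lift_apply_of, h2]
    ext1 a
    obtain ⟨z, hz⟩ := hq (Φ (FreeGroup.of a))
    have h5 : FreeGroup.of a * (ζ z)⁻¹ ∈ Φ.ker := by
      rw [MonoidHom.mem_ker, map_mul, map_inv, mul_inv_eq_one, ← hz]
      exact (DFunLike.congr_fun hζ z).symm
    have h6 := h3 h5
    rw [MonoidHom.mem_ker, map_mul, map_inv, mul_inv_eq_one] at h6
    rw [h6]
    exact DFunLike.congr_fun h4 z
  let T : (α → Multiplicative (ZMod 2)) → (B ⊕ Fin k → Multiplicative (ZMod 2)) :=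
    fun v => Sum.elim (fun b => FreeGroup.lift v (r b)) (fun i => FreeGroup.lift v (w i))
  have hT : Function.Injective T := by
    intro v v' h
    have h1 : FreeGroup.lift v / FreeGroup.lift v' = 1 := by
      refine key _ (fun b => ?_) (fun i => ?_)
      · have := congrFun h (Sum.inl b)
        show FreeGroup.lift v (r b) / FreeGroup.lift v' (r b) = 1
        rw [div_eq_one]
        exact this
      · have := congrFun h (Sum.inr i)
        show FreeGroup.lift v (w i) / FreeGroup.lift v' (w i) = 1
        rw [div_eq_one]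
        exact this
    rw [div_eq_one] at h1
    exact FreeGroup.lift.injective h1
  have h1 := Nat.card_le_card_of_injective T hT
  have h2 : Nat.card (Multiplicative (ZMod 2)) = 2 := by
    show Nat.card (ZMod 2) = 2
    rw [Nat.card_zmod]
  rw [Nat.card_fun, Nat.card_fun, h2, Nat.card_sum, Nat.card_fin] at h1
  exact (Nat.pow_le_pow_iff_right (by norm_num)).1 h1

theorem gens_ge {G : Type} [Group G] (hG : HasRel 1 G) (h2 : ∀ a b : G, Subgroup.closure {a, b} ≠ ⊤)
    (N : Subgroup G) (hN : N.FiniteIndex) {k : ℕ} (q : FreeGroup (Fin k) →* N) (hq : Function.Surjective q) :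
    N.index + 1 ≤ k := by
  classical
  obtain ⟨y, R, hRf, hR, ⟨e⟩⟩ := hG
  let π : FreeGroup (Fin y) →* G := e.symm.toMonoidHom.comp (PresentedGroup.mk R)
  have hπ : Function.Surjective π := e.symm.surjective.comp (PresentedGroup.mk_surjective R)
  have hk : π.ker = Subgroup.normalClosure (Set.range (Subtype.val : R → FreeGroup (Fin y))) := by
    rw [Subtype.range_coe]
    have h1 : π.ker = (PresentedGroup.mk R).ker := by
      ext x
      rw [MonoidHom.mem_ker, MonoidHom.mem_ker]
      exact e.symm.map_eq_one_iff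
    rw [h1]
    exact QuotientGroup.ker_mk' _
  have hy : 3 ≤ y := by
    by_contra hy
    refine h2 (if h : 0 < y then π (FreeGroup.of ⟨0, h⟩) else 1) (if h : 1 < y then π (FreeGroup.of ⟨1, h⟩) else 1) ?_
    rw [Subgroup.eq_top_iff']
    intro g
    obtain ⟨x, rfl⟩ := hπ g
    induction x using FreeGroup.induction_on with
    | C1 => rw [map_one]; exact Subgroup.one_mem _
    | of i =>
      obtain ⟨i, hi⟩ := i
      apply Subgroup.subset_closure
      rcases (by omega : i = 0 ∨ i = 1) with rfl | rfl
      · left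
        rw [dif_pos hi]
      · right
        rw [Set.mem_singleton_iff, dif_pos hi]
    | inv_of i hi => rw [map_inv]; exact Subgroup.inv_mem _ hi
    | mul a b ha hb => rw [map_mul]; exact Subgroup.mul_mem _ ha hb
  obtain ⟨r', Φ, hΦ, hk'⟩ := Pool.Agent.MelS.DenseFree.pres_sub π hπ _ hk N
  have hfin : Finite (G ⧸ N) := inferInstance
  have hRf' : Finite R := hRf
  have h3 := card_le_of_pres r' Φ hΦ hk' q hq
  have hj : Nat.card (G ⧸ N) = N.index := rfl
  have hj0 : N.index ≠ 0 := hN.index_ne_zero
  have h4 : Nat.card {a : G ⧸ N // a ≠ ((1 : G) : G ⧸ N)} = N.index - 1 := by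
    let _ := Fintype.ofFinite (G ⧸ N)
    rw [Nat.card_eq_fintype_card, Fintype.card_subtype_compl, Fintype.card_subtype_eq, ← hj,
      Nat.card_eq_fintype_card]
  rw [Nat.card_prod, Nat.card_fin, Nat.card_sum, Nat.card_prod, h4, hj] at h3
  have h5 : Nat.card {x // x ∈ R} ≤ 1 := hR
  have h6 : 3 * N.index ≤ y * N.index := Nat.mul_le_mul_right _ hy
  have h7 : Nat.card {x // x ∈ R} * N.index ≤ 1 * N.index := Nat.mul_le_mul_right _ h5
  omega

end Pool.Agent.MelF
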