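import Pool.Agent.MelF.GenB
import Pool.Agent.MelF.Num
import Pool.Agent.MelL.Tf

/-!
# Generators of one-relator groups which are independent of a subgroup, III

* `exists_gen_emb`: `N = ⟨x_1 .. x_k | r⟩` locally indicable, `H` a subgroup with `n ≤ k - 2` generators: there is `m` such
  that `H` and `x_m` generate the free product `H * ⟨x_m⟩`, `x_m` of infinite order.
* `emb_of_index`: `G` an infinite Mel'nikov group which is not generated by two elements, `H` a subgroup with `n` generators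
  contained in a subgroup `N` of finite index `≥ n + 1`: there is `g` in `N` such that `H * ℤ → G`, `1 ↦ g`, is injective.
* `emb_of_closed`: so if `H` is finitely generated of infinite index and closed in the profinite topology.
-/

open Finset

namespace Pool.Agent.MelF

open Monoid (Coprod)
open Pool.Agent.MelG (HasRel IsMelnikov)
open Pool.Agent.MelL (LocInd locInd_subgroup locInd_melnikov)

theorem LI_closure {N : Type} [Group N] {n : ℕ} (h : Fin n → N) (v : MonoidAlgebra ℚ N)
    (hv : v ∈ LI (Subgroup.closure (Set.range h))) :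
    ∃ c : Fin n → MonoidAlgebra ℚ N, v = ∑ t, c t * (MonoidAlgebra.single (h t) (1 : ℚ) - 1) := by
  obtain ⟨S, hSd⟩ : ∃ S : Submodule (MonoidAlgebra ℚ N) (MonoidAlgebra ℚ N),
    S = Submodule.span _ (Set.range fun t => MonoidAlgebra.single (h t) (1 : ℚ) - 1) := ⟨_, rfl⟩
  have hle : LI (Subgroup.closure (Set.range h)) ≤ S := by
    refine Submodule.span_le.mpr ?_
    rintro _ ⟨a, ha, rfl⟩
    induction ha using Subgroup.closure_induction with
    | mem x hx =>
      obtain ⟨t, rfl⟩ := hx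
      rw [hSd]
      exact Submodule.subset_span ⟨t, rfl⟩
    | one =>
      have h1 : MonoidAlgebra.single (1 : N) (1 : ℚ) - 1 = 0 := sub_self _
      rw [h1]
      exact S.zero_mem
    | mul x y _ _ hx hy =>
      have h1 : MonoidAlgebra.single (x * y) (1 : ℚ) - 1 =
          MonoidAlgebra.single x (1 : ℚ) • (MonoidAlgebra.single y (1 : ℚ) - 1) +
            (MonoidAlgebra.single x (1 : ℚ) - 1) := by
        rw [smul_eq_mul, mul_sub, mul_one, MonoidAlgebra.single_mul_single, mul_one, sub_add_sub_cancel]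
      rw [h1]
      exact S.add_mem (S.smul_mem _ hy) hx
    | inv x _ hx =>
      have h1 : MonoidAlgebra.single x⁻¹ (1 : ℚ) - 1 =
          -(MonoidAlgebra.single x⁻¹ (1 : ℚ) • (MonoidAlgebra.single x (1 : ℚ) - 1)) := by
        rw [smul_eq_mul, mul_sub, mul_one, MonoidAlgebra.single_mul_single, mul_one, inv_mul_cancel, neg_sub]
        rfl
      rw [h1]
      exact S.neg_mem (S.smul_mem _ hx)
  have h1 := hle hv
  rw [hSd, Submodule.mem_span_range_iff_exists_fun] at h1
  obtain ⟨c, hc⟩ := h1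
  exact ⟨c, hc.symm⟩

/-- A subgroup with few generators and a generator of a one-relator group which generate their free product. -/
theorem exists_gen_emb {N : Type} [Group N] {k : ℕ} (q : FreeGroup (Fin k) →* N) (hq : Function.Surjective q)
    (r : FreeGroup (Fin k)) (hr : q.ker = Subgroup.normalClosure {r}) (hl : LocInd N) (A : Subgroup N) {n : ℕ}
    (h : Fin n → N) (hA : Subgroup.closure (Set.range h) = A) (hk : n + 2 ≤ k) :
    ∃ m : Fin k, Function.Injective (Coprod.lift A.subtype (zpowersHom N (q (FreeGroup.of m)))) := by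
  obtain ⟨m, hm⟩ := exists_gen q hq r hr hl h hk
  obtain ⟨f, hf, hx⟩ := exists_pot A (q (FreeGroup.of m)) (by
    intro b hb
    rw [← hA] at hb
    obtain ⟨c, hc⟩ := LI_closure h _ hb
    exact hm b c hc)
  exact ⟨m, inj_of_pot hf hx⟩

theorem emb_of_index {G : Type} [Group G] [Infinite G] (hG : IsMelnikov G)
    (h2 : ∀ a b : G, Subgroup.closure {a, b} ≠ ⊤) (H : Subgroup G) {n : ℕ} (h : Fin n → G)
    (hH : Subgroup.closure (Set.range h) = H) (N : Subgroup G) (hN : N.FiniteIndex) (hHN : H ≤ N)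
    (hi : n + 1 ≤ N.index) : ∃ g ∈ N, Function.Injective (Coprod.lift H.subtype (zpowersHom G g)) := by
  classical
  obtain ⟨k, R, hRf, hR, ⟨e⟩⟩ := hG.2 N hN
  obtain ⟨q, hqd⟩ : ∃ q : FreeGroup (Fin k) →* N, q = e.symm.toMonoidHom.comp (PresentedGroup.mk R) := ⟨_, rfl⟩
  have hq : Function.Surjective q := by
    rw [hqd]
    exact e.symm.surjective.comp (QuotientGroup.mk'_surjective _)
  have hker : q.ker = Subgroup.normalClosure R := by
    ext x
    rw [MonoidHom.mem_ker, hqd]
    show e.symm (PresentedGroup.mk R x) = 1 ↔ _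
    rw [e.symm.map_eq_one_iff]
    exact QuotientGroup.eq_one_iff x
  obtain ⟨r, hrk⟩ : ∃ r, q.ker = Subgroup.normalClosure {r} := by
    rw [hker]
    rcases Nat.le_one_iff_eq_zero_or_eq_one.mp hR with h0 | h1
    · rw [Set.ncard_eq_zero hRf] at h0
      refine ⟨1, ?_⟩
      rw [h0]
      refine le_antisymm (Subgroup.normalClosure_mono (Set.empty_subset _)) ?_
      refine Subgroup.normalClosure_le_normal ?_
      rw [Set.singleton_subset_iff]
      exact Subgroup.one_mem _
    · obtain ⟨r, rfl⟩ := Set.ncard_eq_one.mp h1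
      exact ⟨r, rfl⟩
  have hG1 : HasRel 1 G := by
    obtain ⟨k, R, hR, hR1, ⟨e⟩⟩ := hG.2 ⊤ inferInstance
    exact ⟨k, R, hR, hR1, ⟨(Subgroup.topEquiv).symm.trans e⟩⟩
  have hk := gens_ge hG1 h2 N hN q hq
  have hmem : ∀ t, h t ∈ N := fun t => hHN (by rw [← hH]; exact Subgroup.subset_closure ⟨t, rfl⟩)
  obtain ⟨A, hAd⟩ : ∃ A : Subgroup N, A = H.subgroupOf N := ⟨_, rfl⟩
  have hA : Subgroup.closure (Set.range fun t => (⟨h t, hmem t⟩ : N)) = A := by
    apply Subgroup.map_injective N.subtype_injective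
    rw [MonoidHom.map_closure, hAd, Subgroup.subgroupOf_map_subtype, inf_eq_left.mpr hHN, ← hH, ← Set.range_comp]
    rfl
  obtain ⟨m, hm⟩ := exists_gen_emb q hq r hrk (locInd_subgroup (locInd_melnikov hG) N) A _ hA (by omega)
  refine ⟨(q (FreeGroup.of m) : G), (q (FreeGroup.of m)).2, ?_⟩
  subst hAd
  obtain ⟨φ, hφd⟩ : ∃ φ : H →* (H.subgroupOf N),
    φ = ⟨⟨fun x => ⟨⟨x, hHN x.2⟩, x.2⟩, rfl⟩, fun _ _ => rfl⟩ := ⟨_, rfl⟩
  have hφ : Function.Injective φ := by
    intro x y hxy
    rw [hφd] at hxy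
    exact Subtype.ext (congrArg (fun z : H.subgroupOf N => ((z : N) : G)) hxy)
  have hφ2 : Function.Surjective φ := by
    intro x
    rw [hφd]
    exact ⟨⟨x.1.1, x.2⟩, rfl⟩
  obtain ⟨ε, hε⟩ : ∃ ε : H ≃* (H.subgroupOf N), ∀ x, ε x = φ x := ⟨MulEquiv.ofBijective φ ⟨hφ, hφ2⟩, fun _ => rfl⟩
  have h1 : Coprod.lift H.subtype (zpowersHom G (q (FreeGroup.of m) : G)) =
      N.subtype.comp ((Coprod.lift (H.subgroupOf N).subtype (zpowersHom N (q (FreeGroup.of m)))).comp
        (MulEquiv.coprodCongr ε (MulEquiv.refl (Multiplicative ℤ))).toMonoidHom) := by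
    apply Coprod.hom_ext
    · ext x
      show (x : G) = (((Coprod.lift (H.subgroupOf N).subtype (zpowersHom N (q (FreeGroup.of m)))) 
        ((MulEquiv.coprodCongr ε (MulEquiv.refl (Multiplicative ℤ))) (Coprod.inl x)) : N) : G)
      have h3 : (MulEquiv.coprodCongr ε (MulEquiv.refl (Multiplicative ℤ))) (Coprod.inl x) = Coprod.inl (ε x) := rfl
      rw [h3, Coprod.lift_apply_inl, hε, hφd]
      rfl
    · apply MonoidHom.ext_mint
      simp
  rw [h1]
  exact N.subtype_injective.comp (hm.comp (MulEquiv.coprodCongr ε (MulEquiv.refl (Multiplicative ℤ))).injective)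

/-- A closed subgroup of infinite index lies in subgroups of arbitrarily large finite index. -/
theorem exists_index_of_closed {G : Type} [Group G] (H : Subgroup G) (hi : H.index = 0)
    (hcl : ∀ g ∉ H, ∃ M : Subgroup G, M.FiniteIndex ∧ H ≤ M ∧ g ∉ M) (B : ℕ) :
    ∃ N : Subgroup G, N.FiniteIndex ∧ H ≤ N ∧ B ≤ N.index := by
  induction B with
  | zero => exact ⟨⊤, inferInstance, le_top, Nat.zero_le _⟩
  | succ B ih =>
    obtain ⟨N, h1, h2, h3⟩ := ih
    have hne : ¬ N ≤ H := by
      intro h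
      exact h1.index_ne_zero (le_antisymm h h2 ▸ hi)
    obtain ⟨x, hx, hxH⟩ := SetLike.not_le_iff_exists.mp hne
    obtain ⟨M, hM, hHM, hxM⟩ := hcl x hxH
    have hNM : (N ⊓ M).FiniteIndex := inferInstance
    refine ⟨N ⊓ M, hNM, le_inf h2 hHM, ?_⟩
    have h6 := Subgroup.relIndex_mul_index (inf_le_left : N ⊓ M ≤ N)
    have h7 : (N ⊓ M).relIndex N ≠ 1 := by
      intro h
      exact hxM ((Subgroup.relIndex_eq_one.mp h) hx).2
    have h8 : (N ⊓ M).index ≠ 0 := hNM.index_ne_zero
    have h9 : (N ⊓ M).relIndex N ≠ 0 := by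
      intro h
      rw [h, zero_mul] at h6
      exact h8 h6.symm
    have h10 : 0 < N.index := Nat.pos_of_ne_zero h1.index_ne_zero
    have h11 : 2 ≤ (N ⊓ M).relIndex N := by omega
    nlinarith

theorem emb_of_closed {G : Type} [Group G] [Infinite G] (hG : IsMelnikov G)
    (h2 : ∀ a b : G, Subgroup.closure {a, b} ≠ ⊤) (H : Subgroup G) (hfg : H.FG)
    (hlarge : ∀ B : ℕ, ∃ N : Subgroup G, N.FiniteIndex ∧ H ≤ N ∧ B ≤ N.index) :
    ∃ g : G, Function.Injective (Coprod.lift H.subtype (zpowersHom G g)) := by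
  classical
  obtain ⟨S, hS⟩ := hfg
  obtain ⟨N, hN, hHN, hi⟩ := hlarge (S.card + 1)
  have hr : Set.range (fun i : Fin S.card => ((S.equivFin.symm i : S) : G)) = (S : Set G) := by
    ext x
    constructor
    · rintro ⟨i, rfl⟩
      exact (S.equivFin.symm i).2
    · intro hx
      exact ⟨S.equivFin ⟨x, hx⟩, by simp⟩
  obtain ⟨g, -, hg⟩ := emb_of_index hG h2 H (fun i : Fin S.card => ((S.equivFin.symm i : S) : G))
    (by rw [hr, hS]) N hN hHN hi
  exact ⟨g, hg⟩

end Pool.Agent.MelF
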