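import Pool.Agent.MelS.Alg
import Pool.Agent.MelS.Lead

/-!
# The group rings of the quotients of a tower (module F3)

`𝒯` an order tower of the finitely generated group `H`; `Γ = H ⧸ 𝒯.k i`.
* `dom_quot`: `Γ` is left ordered (`H_left`, `H_eq`), so `K[Γ]` has no zero divisors (leading terms, or `UniqueProds` of `Γ`).
* `rank_le`: `K[Γ]` is left noetherian: the image `A` of `𝒯.n i` in `Γ` is abelian (`comm`), finitely generated and of finite
  index; `K[A]` is a commutative algebra of finite type, so noetherian, and `K[Γ]` is a finite left module over it.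
  Noetherian rings have the strong rank condition (`IsNoetherianRing.strongRankCondition`,
  `le_of_fin_injective`).
* `exists_level`: `b ≠ 0`, `g` in the support: for large `i` no other element of the support is in `g 𝒯.k i` (`inf`, `k_anti`,
  `k_normal`), so the coefficient of the image at the class of `g` is not zero.
-/

open Finset

namespace Pool.Agent.MelF

open Pool.Agent.MelS

/-- The group algebra of a group with a finitely generated abelian normal subgroup of finite index is
left noetherian. -/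
theorem noeth_of_abelian {Γ A K : Type} [Group Γ] [CommGroup A] [Field K] (ι : A →* Γ)
    (hn : ι.range.Normal) (hf : ι.range.FiniteIndex) (hA : Group.FG A) :
    IsNoetherianRing (MonoidAlgebra K Γ) := by
  classical
  haveI : Monoid.FG A := (Group.fg_iff_monoid_fg).1 hA
  haveI h1 : Algebra.FiniteType K (MonoidAlgebra K A) := inferInstance
  haveI h2 : IsNoetherianRing (MonoidAlgebra K A) := Algebra.FiniteType.isNoetherianRing K _
  obtain ⟨j, hj⟩ : ∃ j : MonoidAlgebra K A →+* MonoidAlgebra K Γ,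
    j = MonoidAlgebra.mapDomainRingHom K ι := ⟨_, rfl⟩
  letI : Module (MonoidAlgebra K A) (MonoidAlgebra K Γ) := Module.compHom _ j
  have hsm : ∀ (x : MonoidAlgebra K A) (y : MonoidAlgebra K Γ), x • y = j x * y := fun _ _ => rfl
  haveI : IsScalarTower (MonoidAlgebra K A) (MonoidAlgebra K Γ) (MonoidAlgebra K Γ) :=
    ⟨fun x s m => by rw [hsm, hsm, smul_eq_mul, smul_eq_mul, mul_assoc]⟩
  haveI : Finite (Γ ⧸ ι.range) := Subgroup.finite_quotient_of_finiteIndex
  haveI : Module.Finite (MonoidAlgebra K A) (MonoidAlgebra K Γ) := by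
    refine ⟨Submodule.fg_def.2 ⟨Set.range fun q : Γ ⧸ ι.range => MonoidAlgebra.single q.out (1 : K),
      Set.finite_range _, ?_⟩⟩
    rw [eq_top_iff]
    rintro y -
    induction y using MonoidAlgebra.induction_linear with
    | zero => exact Submodule.zero_mem _
    | add y1 y2 h1 h2 => exact Submodule.add_mem _ h1 h2
    | single g r =>
      obtain ⟨q, hq⟩ : ∃ q : Γ ⧸ ι.range, q = QuotientGroup.mk g := ⟨_, rfl⟩
      have h3 : q.out⁻¹ * g ∈ ι.range := by
        refine QuotientGroup.eq.1 ?_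
        rw [QuotientGroup.out_eq', hq]
      have h4 : g * q.out⁻¹ ∈ ι.range := by
        have h5 := hn.conj_mem _ h3 q.out
        have h6 : q.out * (q.out⁻¹ * g) * q.out⁻¹ = g * q.out⁻¹ := by group
        rwa [h6] at h5
      obtain ⟨a, ha⟩ := h4
      have h7 : MonoidAlgebra.single g r =
          (MonoidAlgebra.single a r : MonoidAlgebra K A) • (MonoidAlgebra.single q.out (1 : K)) := by
        rw [hsm, hj]
        have h8 : (MonoidAlgebra.mapDomainRingHom K ι) (MonoidAlgebra.single a r) =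
            MonoidAlgebra.single (ι a) r := MonoidAlgebra.mapDomain_single
        rw [h8, MonoidAlgebra.single_mul_single, ha, mul_one, inv_mul_cancel_right]
      rw [h7]
      exact Submodule.smul_mem _ _ (Submodule.subset_span ⟨q, rfl⟩)
  have h9 : IsNoetherian (MonoidAlgebra K A) (MonoidAlgebra K Γ) :=
    isNoetherian_of_isNoetherianRing_of_finite _ _
  exact isNoetherian_of_tower (MonoidAlgebra K A) h9

variable {H Λ : Type} [Group H] [AddCommGroup Λ] [LinearOrder Λ] [IsOrderedAddMonoid Λ] (𝒯 : OrdTower H Λ)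
variable {K : Type} [Field K]

theorem dom_quot (i : ℕ) : NoZeroDivisors (MonoidAlgebra K (H ⧸ 𝒯.k i)) :=
  noZeroDivisors_quot 𝒯 i

/-- The group algebras of the quotients are left noetherian. -/
theorem noeth_quot (hfg : Group.FG H) (i : ℕ) : IsNoetherianRing (MonoidAlgebra K (H ⧸ 𝒯.k i)) := by
  classical
  obtain ⟨A, hA⟩ : ∃ A : Subgroup (H ⧸ 𝒯.k i), A = (𝒯.n i).map (QuotientGroup.mk' (𝒯.k i)) := ⟨_, rfl⟩
  have hAc : ∀ a b : A, a * b = b * a := by
    rintro ⟨a, ha⟩ ⟨b, hb⟩
    rw [hA] at ha hb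
    obtain ⟨a', ha', rfl⟩ := ha
    obtain ⟨b', hb', rfl⟩ := hb
    apply Subtype.ext
    change QuotientGroup.mk' (𝒯.k i) a' * QuotientGroup.mk' (𝒯.k i) b' =
      QuotientGroup.mk' (𝒯.k i) b' * QuotientGroup.mk' (𝒯.k i) a'
    rw [← map_mul, ← map_mul]
    have h1 := 𝒯.comm i b'⁻¹ ((𝒯.n i).inv_mem hb') a'⁻¹ ((𝒯.n i).inv_mem ha')
    rw [inv_inv, inv_inv] at h1
    refine QuotientGroup.eq.2 ?_
    rw [mul_inv_rev, ← mul_assoc]
    exact h1
  have hf' : A.FiniteIndex := by
    rw [hA]
    refine ⟨?_⟩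
    rw [Subgroup.index_map_eq _ (QuotientGroup.mk'_surjective _) (by
      rw [QuotientGroup.ker_mk']
      exact 𝒯.k_le i)]
    exact (𝒯.n_fin i).index_ne_zero
  haveI hfgQ : Group.FG (H ⧸ 𝒯.k i) := by
    haveI := hfg
    infer_instance
  have hfgA : Group.FG A := by
    haveI := hf'
    infer_instance
  letI : CommGroup A := { (inferInstance : Group A) with mul_comm := hAc }
  have hn : A.subtype.range.Normal := by
    rw [Subgroup.range_subtype, hA]
    exact (𝒯.n_normal i).map _ (QuotientGroup.mk'_surjective _)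
  have hf : A.subtype.range.FiniteIndex := by
    rw [Subgroup.range_subtype]
    exact hf'
  exact noeth_of_abelian A.subtype hn hf hfgA

theorem rank_le (hfg : Group.FG H) (i : ℕ) {a b : ℕ}
    (L : (Fin a → MonoidAlgebra K (H ⧸ 𝒯.k i)) →ₗ[MonoidAlgebra K (H ⧸ 𝒯.k i)] (Fin b → MonoidAlgebra K (H ⧸ 𝒯.k i)))
    (hL : Function.Injective L) : a ≤ b := by
  haveI := noeth_quot 𝒯 (K := K) hfg i
  haveI : StrongRankCondition (MonoidAlgebra K (H ⧸ 𝒯.k i)) := inferInstance
  exact le_of_fin_injective _ L hL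

/-- The subgroups `k i` decrease. -/
theorem k_le_k {i j : ℕ} (hij : i ≤ j) : 𝒯.k j ≤ 𝒯.k i := by
  induction hij with
  | refl => exact le_rfl
  | step _ ih => exact (𝒯.k_anti _).trans ih

theorem exists_level (b : MonoidAlgebra K H) (hb : b ≠ 0) : ∃ i₀, ∀ i, i₀ ≤ i → mapQ K (𝒯.k i) b ≠ 0 := by
  classical
  obtain ⟨g, hg⟩ : ∃ g, b.coeff g ≠ 0 := by
    by_contra hcon
    push Not at hcon
    exact hb (MonoidAlgebra.ext (Finsupp.ext fun g => by rw [hcon g]; rfl))
  have h1 : ∀ g' : H, ∃ i, g' ≠ g → g⁻¹ * g' ∉ 𝒯.k i := by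
    intro g'
    by_contra hcon
    push Not at hcon
    have h2 := 𝒯.inf (g⁻¹ * g') fun i => (hcon i).2
    exact (hcon 0).1 (inv_mul_eq_one.1 h2).symm
  choose f hf using h1
  refine ⟨b.coeff.support.sup f, fun i hi h0 => ?_⟩
  have h3 := fnl_mapQ (K := K) (fun c' : H ⧸ 𝒯.k i => if c' = QuotientGroup.mk g then (1 : K) else 0) b
  rw [h0] at h3
  rw [Finset.sum_eq_single g] at h3
  · rw [if_pos rfl, mul_one] at h3
    apply hg
    rw [← h3]
    simp [fnl]
  · intro g' hg' hne
    rw [if_neg, mul_zero]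
    intro h4
    refine hf g' hne (k_le_k 𝒯 ((Finset.le_sup hg').trans hi) ?_)
    exact QuotientGroup.eq.1 h4.symm
  · intro h4
    exact absurd (Finsupp.mem_support_iff.2 hg) h4

end Pool.Agent.MelF
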