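import Pool.Agent.MelF.Def
import Pool.Agent.MelF.Rank
import Pool.Agent.MelS.Heights

/-!
# An element independent of the relator (module F4)

`H` generated by `h_1 .. h_n`, RFRS, `k ≥ n + 2`, `D ≠ 0`.  Suppose that no `w` with `ρ (q w) = 1` satisfies `Ind K w`.
`K[H]` has no zero divisors (`exists_tower`, `exists_level`, `dom_quot`).  Choose lifts `Q_i ∈ F_k` of `s (h_i)`
(`q Q_i = s h_i`) and words `W_m ∈ F_n` with `W_m (h) = ρ (q x_m)`; `P_m = W_m (Q)`; `w_m = x_m P_m⁻¹`, `ρ (q w_m) = 1`.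
Fox derivatives: `∂ w_m = e_m - ∂ P_m`, `∂ P_m = ∑ i, ω_{m i} ∂ Q_i` (chain rule: `ω_{m i}` the Fox derivatives of
`W_m` with respect to `y_i ↦ h_i`; `coc_unique`, `coc_eq_sum`).  By assumption there are `a_m, b_m` not both zero with
`a_m D + b_m ∂ w_m = 0`; `b_m = 0` gives `a_m D = 0`, so `a_m = 0`; hence `b_m ≠ 0` and
`b_m e_m = ∑ i, (b_m ω_{m i}) ∂ Q_i - a_m D`   for all `m`.
Take `i` with all `b_m` not zero in the domain `R = K[H / k_i]`.  The left `R`-linear map `R^k → R^(n+1)`,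
`z ↦ ((∑ m, z_m b_m ω_{m j})_j, - ∑ m, z_m a_m)`, is injective: if the image of `z` is zero then
`∑ m, z_m b_m e_m = 0`, so `z_m b_m = 0`, `z_m = 0`.  So `k ≤ n + 1` (`rank_le`), a contradiction.
-/

open Finset

namespace Pool.Agent.MelF

open Pool.Agent.MelD (fox coc fox_mul fox_of coc_inv coc_mul coc_unique coc_eq_sum coc_of)
open Pool.Agent.MelS (IsRFRS OrdTower exists_tower mapQ)

/-- The group ring of a tower group has no zero divisors. -/
theorem dom_tower {H Λ : Type} [Group H] [AddCommGroup Λ] [LinearOrder Λ] [IsOrderedAddMonoid Λ] (𝒯 : OrdTower H Λ)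
    {K : Type} [Field K] {a b : MonoidAlgebra K H} (h : a * b = 0) : a = 0 ∨ b = 0 := by
  by_contra hcon
  obtain ⟨ha, hb⟩ := not_or.mp hcon
  obtain ⟨i, hi⟩ := exists_level 𝒯 a ha
  obtain ⟨j, hj⟩ := exists_level 𝒯 b hb
  have := dom_quot (K := K) 𝒯 (max i j)
  have h1 : mapQ K (𝒯.k (max i j)) a * mapQ K (𝒯.k (max i j)) b = 0 := by
    rw [← map_mul, h, map_zero]
  rcases mul_eq_zero.mp h1 with h2 | h2
  · exact hi _ (le_max_left i j) h2
  · exact hj _ (le_max_right i j) h2

private theorem aux {A : Type} [AddCommGroup A] {x e s : A} (h : x + (e - s) = 0) : e = s - x := by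
  rw [← sub_eq_zero, ← h]
  abel

/-- The chain rule. -/
theorem fox_chain {H : Type} [Group H] {k n : ℕ} {K : Type} [Field K] (f : FreeGroup (Fin k) →* MonoidAlgebra K H)
    (f' : FreeGroup (Fin n) →* MonoidAlgebra K H) (Q : Fin n → FreeGroup (Fin k))
    (hf : ∀ u, f (FreeGroup.lift Q u) = f' u) (j : Fin k) (u : FreeGroup (Fin n)) :
    fox f j (FreeGroup.lift Q u) = ∑ i, fox f' i u * fox f j (Q i) := by
  have h := coc_unique f' (fun u => fox f j (FreeGroup.lift Q u)) (coc f' fun i => fox f j (Q i)) ?_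
    (coc_mul f' _) ?_ u
  · rw [coc_eq_sum] at h
    exact h
  · intro a b
    show fox f j (FreeGroup.lift Q (a * b)) = fox f j (FreeGroup.lift Q a) + f' a • fox f j (FreeGroup.lift Q b)
    rw [map_mul, fox_mul, hf, smul_eq_mul]
  · intro i
    show fox f j (FreeGroup.lift Q (FreeGroup.of i)) = _
    rw [FreeGroup.lift_apply_of, coc_of]

theorem exists_ind {N H : Type} [Group N] [Group H] {k : ℕ} (X : RetH N H k) (hfg : Group.FG H) (hR : IsRFRS H)
    {n : ℕ} (h : Fin n → H) (hgen : Subgroup.closure (Set.range h) = ⊤) (hk : n + 2 ≤ k) (K : Type) [Field K]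
    (hD : ∃ m, X.D K m ≠ 0) : ∃ w, X.ρ (X.q w) = 1 ∧ X.Ind K w := by
  classical
  have := hfg
  obtain ⟨Λ, _, _, _, ⟨𝒯⟩⟩ := exists_tower H hR
  by_contra hcon
  obtain ⟨m₀, hm₀⟩ := hD
  choose Q hQ using fun i => X.hq (X.s (h i))
  obtain ⟨y, hyd⟩ : ∃ y : FreeGroup (Fin n) →* H, y = FreeGroup.lift h := ⟨_, rfl⟩
  have hy : Function.Surjective y := by
    rw [hyd, ← MonoidHom.range_eq_top, FreeGroup.range_lift_eq_closure, hgen]
  choose W hW using fun m => hy (X.ρ (X.q (FreeGroup.of m)))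
  have hρQ : ∀ u, X.ρ (X.q (FreeGroup.lift Q u)) = y u := by
    intro u
    have h1 : (X.ρ.comp X.q).comp (FreeGroup.lift Q) = y := by
      apply FreeGroup.ext_hom
      intro i
      show X.ρ (X.q (FreeGroup.lift Q (FreeGroup.of i))) = y (FreeGroup.of i)
      rw [FreeGroup.lift_apply_of, hQ, X.hs, hyd, FreeGroup.lift_apply_of]
    exact DFunLike.congr_fun h1 u
  obtain ⟨P, hPd⟩ : ∃ P : Fin k → FreeGroup (Fin k), P = fun m => FreeGroup.lift Q (W m) := ⟨_, rfl⟩
  obtain ⟨f', hf'd⟩ : ∃ f' : FreeGroup (Fin n) →* MonoidAlgebra K H, f' = (MonoidAlgebra.of K H).comp y := ⟨_, rfl⟩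
  have hff : ∀ u, X.f K (FreeGroup.lift Q u) = f' u := by
    intro u
    rw [X.f_apply, hρQ, hf'd]
    rfl
  have hP : ∀ m, X.ρ (X.q (P m)) = X.ρ (X.q (FreeGroup.of m)) := by
    intro m
    rw [hPd]
    show X.ρ (X.q (FreeGroup.lift Q (W m))) = _
    rw [hρQ, hW]
  have hw : ∀ m, X.ρ (X.q (FreeGroup.of m * (P m)⁻¹)) = 1 := by
    intro m
    rw [map_mul, map_mul, map_inv, map_inv, hP, mul_inv_cancel]
  have hfw : ∀ m j, fox (X.f K) j (FreeGroup.of m * (P m)⁻¹) =
      (if m = j then 1 else 0) - ∑ i, fox f' i (W m) * fox (X.f K) j (Q i) := by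
    intro m j
    have h1 : fox (X.f K) j (P m)⁻¹ = - (X.f K (P m)⁻¹ • fox (X.f K) j (P m)) := coc_inv _ _ _
    have h2 : fox (X.f K) j (P m) = ∑ i, fox f' i (W m) * fox (X.f K) j (Q i) := by
      rw [hPd]
      exact fox_chain (X.f K) f' Q hff j (W m)
    have h3 : X.f K (FreeGroup.of m) * X.f K (P m)⁻¹ = 1 := by
      rw [← map_mul, X.f_apply, hw]
      rfl
    rw [fox_mul, fox_of, h1, smul_eq_mul, mul_neg, ← mul_assoc, h3, one_mul, h2, sub_eq_add_neg]
  have hex : ∀ m, ∃ a b : MonoidAlgebra K H,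
      (∀ j, a * X.D K j + b * fox (X.f K) j (FreeGroup.of m * (P m)⁻¹) = 0) ∧ ¬ (a = 0 ∧ b = 0) := by
    intro m
    by_contra hm
    refine hcon ⟨_, hw m, fun a b hab => ?_⟩
    by_contra h0
    exact hm ⟨a, b, hab, h0⟩
  choose a b hab hne using hex
  have hb : ∀ m, b m ≠ 0 := by
    intro m h0
    have h1 := hab m m₀
    rw [h0, zero_mul, add_zero] at h1
    rcases dom_tower 𝒯 h1 with h2 | h2
    · exact hne m ⟨h2, h0⟩
    · exact hm₀ h2
  choose i₀ hi₀ using fun m => exists_level 𝒯 (b m) (hb m)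
  obtain ⟨i, hid⟩ : ∃ i, i = univ.sup i₀ := ⟨_, rfl⟩
  have hbi : ∀ m, mapQ K (𝒯.k i) (b m) ≠ 0 := by
    intro m
    apply hi₀ m
    rw [hid]
    exact le_sup (mem_univ m)
  obtain ⟨π, hπ⟩ : ∃ π : MonoidAlgebra K H →+* MonoidAlgebra K (H ⧸ 𝒯.k i), π = mapQ K (𝒯.k i) := ⟨_, rfl⟩
  rw [← hπ] at hbi
  have hdom := dom_quot (K := K) 𝒯 i
  obtain ⟨M, hM⟩ : ∃ M : Matrix (Fin k) (Fin (n + 1)) (MonoidAlgebra K (H ⧸ 𝒯.k i)),
      M = fun m => Fin.cons (- π (a m)) fun t => π (b m * fox f' t (W m)) := ⟨_, rfl⟩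
  have hinj : Function.Injective M.vecMulLinear := by
    rw [injective_iff_map_eq_zero]
    intro z hz
    have hz0 : ∑ m, z m * π (a m) = 0 := by
      have h1 := congrFun hz 0
      simp only [Matrix.vecMulLinear_apply, Matrix.vecMul, dotProduct, hM, Fin.cons_zero, mul_neg,
        sum_neg_distrib, Pi.zero_apply, neg_eq_zero] at h1
      exact h1
    have hzs : ∀ t, ∑ m, z m * π (b m * fox f' t (W m)) = 0 := by
      intro t
      have h1 := congrFun hz t.succ
      simp only [Matrix.vecMulLinear_apply, Matrix.vecMul, dotProduct, hM, Fin.cons_succ, Pi.zero_apply] at h1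
      exact h1
    funext j
    have h1 : z j * π (b j) = 0 := by
      have h2 : ∀ m, π (b m) * (if m = j then 1 else 0) =
          ∑ t, π (b m * fox f' t (W m)) * π (fox (X.f K) j (Q t)) - π (a m) * π (X.D K j) := by
        intro m
        have h3 := hab m j
        rw [hfw, mul_sub, mul_sum] at h3
        have h4 : b m * (if m = j then 1 else 0) =
            ∑ t, b m * (fox f' t (W m) * fox (X.f K) j (Q t)) - a m * X.D K j := by
          exact aux h3
        have h5 := congrArg π h4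
        rw [map_mul, map_sub, map_sum, map_mul π (a m), apply_ite π, map_one, map_zero] at h5
        rw [h5]
        congr 1
        refine sum_congr rfl fun t _ => ?_
        rw [← map_mul, mul_assoc]
      have h6 : ∑ m, z m * (π (b m) * (if m = j then 1 else 0)) = z j * π (b j) := by
        rw [sum_eq_single j]
        · rw [if_pos rfl, mul_one]
        · intro m _ hmj
          rw [if_neg hmj, mul_zero, mul_zero]
        · intro hj
          exact absurd (mem_univ j) hj
      rw [← h6]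
      simp only [h2, mul_sub, mul_sum, sum_sub_distrib]
      rw [sum_comm]
      have h7 : ∑ t, ∑ m, z m * (π (b m * fox f' t (W m)) * π (fox (X.f K) j (Q t))) = 0 := by
        refine sum_eq_zero fun t _ => ?_
        simp only [← mul_assoc]
        rw [← sum_mul, hzs t, zero_mul]
      have h8 : ∑ m, z m * (π (a m) * π (X.D K j)) = 0 := by
        simp only [← mul_assoc]
        rw [← sum_mul, hz0, zero_mul]
      rw [h7, h8, sub_zero]
    exact (mul_eq_zero.mp h1).resolve_right (hbi j)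
  have := rank_le 𝒯 hfg i M.vecMulLinear hinj
  omega

end Pool.Agent.MelF
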