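import Mathlib

/-!
# Virtual retracts are closed (module F7)

`G` residually finite, `H` a subgroup of infinite index, `N` of finite index, `ρ : N → G` a retraction onto `H ≤ N`: there
are subgroups of finite index between `H` and `N` of arbitrarily large index.

Let `N'` be a subgroup of finite index with `H ≤ N' ≤ N`.  `H ≠ N'` as `H` has infinite index; let `x ∈ N'`, `x ∉ H`.  Then
`ρ x ≠ x` (`ρ x ∈ H`), so there is a normal subgroup `M` of finite index of `G` with `x⁻¹ ρ x ∉ M` (a subgroup of finite index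
contains a normal one).  The subgroup `{y ∈ N' : y⁻¹ ρ y ∈ M}` (equalizer of two homomorphisms `N' → G / M`, mapped to `G`)
contains `H`, is of finite index and does not contain `x`: its index is larger.
-/

namespace Pool.Agent.MelF

theorem exists_larger {G : Type} [Group G] (hrf : ∀ g : G, g ≠ 1 → ∃ M : Subgroup G, M.FiniteIndex ∧ g ∉ M)
    (H N : Subgroup G) (hH : H.index = 0) (hN : N.FiniteIndex) (hHN : H ≤ N) (ρ : N →* G) (hρ : ∀ x, ρ x ∈ H)
    (hρH : ∀ x : H, ρ ⟨x, hHN x.2⟩ = x) (N' : Subgroup G) (hN' : N'.FiniteIndex) (h1 : H ≤ N') (h2 : N' ≤ N) :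
    ∃ N'' : Subgroup G, N''.FiniteIndex ∧ H ≤ N'' ∧ N'' ≤ N ∧ N'.index < N''.index := by
  have hne : ¬ N' ≤ H := by
    intro h
    have h3 : N' = H := le_antisymm h h1
    exact hN'.index_ne_zero (h3 ▸ hH)
  obtain ⟨x, hx, hxH⟩ := SetLike.not_le_iff_exists.mp hne
  have hy : x⁻¹ * ρ ⟨x, h2 hx⟩ ≠ 1 := by
    intro h
    apply hxH
    rw [inv_mul_eq_one] at h
    rw [h]
    exact hρ _
  obtain ⟨M, hM, hyM⟩ := hrf _ hy
  have hM0 : (M.normalCore).FiniteIndex := inferInstance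
  have hyM0 : x⁻¹ * ρ ⟨x, h2 hx⟩ ∉ M.normalCore := fun h => hyM (M.normalCore_le h)
  let f : N →* G ⧸ M.normalCore := (QuotientGroup.mk' M.normalCore).comp N.subtype
  let g : N →* G ⧸ M.normalCore := (QuotientGroup.mk' M.normalCore).comp ρ
  have hfin : Finite (G ⧸ M.normalCore) := inferInstance
  have hker : ∀ u : N →* G ⧸ M.normalCore, u.ker.FiniteIndex := by
    intro u
    have : Finite u.range := Subtype.finite
    exact Subgroup.finiteIndex_ker u
  have hE : (f.eqLocus g).FiniteIndex := by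
    have h3 := hker f
    have h4 := hker g
    refine Subgroup.finiteIndex_of_le (H := f.ker ⊓ g.ker) ?_
    intro z hz
    show f z = g z
    rw [(MonoidHom.mem_ker).mp hz.1, (MonoidHom.mem_ker).mp hz.2]
  let E : Subgroup G := (f.eqLocus g).map N.subtype
  have hEfin : E.FiniteIndex := by
    constructor
    show ((f.eqLocus g).map N.subtype).index ≠ 0
    rw [Subgroup.index_map_subtype]
    exact mul_ne_zero hE.index_ne_zero hN.index_ne_zero
  have hN''fin : (N' ⊓ E).FiniteIndex := inferInstance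
  refine ⟨N' ⊓ E, hN''fin, ?_, inf_le_left.trans h2, ?_⟩
  · intro h hh
    refine ⟨h1 hh, ⟨h, hHN hh⟩, ?_, rfl⟩
    show f ⟨h, hHN hh⟩ = g ⟨h, hHN hh⟩
    show (QuotientGroup.mk' M.normalCore) h = (QuotientGroup.mk' M.normalCore) (ρ ⟨h, hHN hh⟩)
    rw [hρH ⟨h, hh⟩]
  · have hxE : x ∉ N' ⊓ E := by
      rintro ⟨-, z, hz, hzx⟩
      apply hyM0
      have hz2 : z = ⟨x, h2 hx⟩ := Subtype.ext hzx
      have h5 : f z = g z := hz
      rw [hz2] at h5
      exact QuotientGroup.eq.mp h5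
    have h6 := Subgroup.relIndex_mul_index (inf_le_left : N' ⊓ E ≤ N')
    have h7 : (N' ⊓ E).relIndex N' ≠ 1 := by
      intro h
      exact hxE ((Subgroup.relIndex_eq_one.mp h) hx)
    have h8 : (N' ⊓ E).index ≠ 0 := hN''fin.index_ne_zero
    have h9 : (N' ⊓ E).relIndex N' ≠ 0 := by
      intro h
      rw [h, zero_mul] at h6
      exact h8 h6.symm
    have h10 : 0 < N'.index := Nat.pos_of_ne_zero hN'.index_ne_zero
    have h11 : 2 ≤ (N' ⊓ E).relIndex N' := by omega
    nlinarith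

theorem exists_large {G : Type} [Group G] (hrf : ∀ g : G, g ≠ 1 → ∃ M : Subgroup G, M.FiniteIndex ∧ g ∉ M)
    (H N : Subgroup G) (hH : H.index = 0) (hN : N.FiniteIndex) (hHN : H ≤ N) (ρ : N →* G) (hρ : ∀ x, ρ x ∈ H)
    (hρH : ∀ x : H, ρ ⟨x, hHN x.2⟩ = x) (B : ℕ) : ∃ N' : Subgroup G, N'.FiniteIndex ∧ H ≤ N' ∧ N' ≤ N ∧ B ≤ N'.index := by
  induction B with
  | zero => exact ⟨N, hN, hHN, le_refl _, Nat.zero_le _⟩
  | succ B ih =>
    obtain ⟨N', h1, h2, h3, h4⟩ := ih
    obtain ⟨N'', h5, h6, h7, h8⟩ := exists_larger hrf H N hH hN hHN ρ hρ hρH N' h1 h2 h3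
    exact ⟨N'', h5, h6, h7, by omega⟩

end Pool.Agent.MelF
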