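import Pool.Agent.MelE.Fin
import Pool.Agent.MelF.DerH
import Pool.Agent.MelF.Emb
import Pool.Agent.MelF.IndepL
import Pool.Agent.MelF.Num
import Pool.Agent.MelF.Sep

/-!
# Subgroups of infinite index of Mel'nikov groups all of whose subgroups are virtual retracts

`free_or_emb`: `G` infinite Mel'nikov, not generated by two elements, `H` finitely generated, of infinite index, a virtual
retract: `H` is free or there is `g` in `G` such that `H * ℤ → G`, `1 ↦ g`, is injective.
`free_of_lr`: if every finitely generated subgroup of `G` is a virtual retract, `H` is free.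
-/

namespace Pool.Agent.MelF

open Monoid (Coprod)
open Pool.Agent.MelG (HasRel IsMelnikov)
open Pool.Agent.MelL (LocInd locInd_subgroup locInd_melnikov)
open Pool.Agent.MelE (free_of_der b1 free_retract)

/-- `H` is a retract of a subgroup of finite index of `G`. -/
def VRet {G : Type} [Group G] (H : Subgroup G) : Prop :=
  ∃ (N : Subgroup G) (hHN : H ≤ N) (ρ : N →* H), N.FiniteIndex ∧ ∀ x : H, ρ ⟨x, hHN x.2⟩ = x

/-- `free_or_emb` with `g` in the domain of the retraction. -/
theorem free_or_emb_mem {G : Type} [Group G] [Infinite G] (hG : IsMelnikov G)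
    (h2 : ∀ a b : G, Subgroup.closure {a, b} ≠ ⊤) (H : Subgroup G) (hfg : H.FG) (hi : H.index = 0)
    (N : Subgroup G) (hHN : H ≤ N) (ρ : N →* H) (hN : N.FiniteIndex) (hρ : ∀ x : H, ρ ⟨x, hHN x.2⟩ = x) :
    IsFreeGroup H ∨ ∃ g ∈ N, Function.Injective (Coprod.lift H.subtype (zpowersHom G g)) := by
  classical
  have hl : LocInd H := locInd_subgroup (locInd_melnikov hG) H
  have hfg' : Group.FG H := (Group.fg_iff_subgroup_fg H).mpr hfg
  obtain ⟨n, S, hSn, hS⟩ := Group.fg_iff'.mp hfg'
  let h : Fin S.card → H := fun i => (S.equivFin.symm i).1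
  have hr : Set.range h = (S : Set H) := by
    ext x
    constructor
    · rintro ⟨i, rfl⟩
      exact (S.equivFin.symm i).2
    · intro hx
      exact ⟨S.equivFin ⟨x, hx⟩, by simp [h]⟩
  have hgen : Subgroup.closure (Set.range h) = ⊤ := by rw [hr, hS]
  obtain ⟨N', hN', hHN', hN'N, hB⟩ := exists_large hG.1 H N hi hN hHN (H.subtype.comp ρ) (fun x => (ρ x).2)
    (fun x => congrArg Subtype.val (hρ x)) (S.card + 1)
  obtain ⟨k, R, hRf, hR, ⟨e⟩⟩ := hG.2 N' hN'
  obtain ⟨q, hqd⟩ : ∃ q : FreeGroup (Fin k) →* N', q = e.symm.toMonoidHom.comp (PresentedGroup.mk R) := ⟨_, rfl⟩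
  have hq : Function.Surjective q := by
    rw [hqd]
    exact e.symm.surjective.comp (QuotientGroup.mk'_surjective _)
  have hker : q.ker = Subgroup.normalClosure R := by
    ext x
    rw [MonoidHom.mem_ker, hqd]
    show e.symm (PresentedGroup.mk R x) = 1 ↔ _
    rw [e.symm.map_eq_one_iff]
    exact QuotientGroup.eq_one_iff x
  obtain ⟨r, hrk⟩ : ∃ r, q.ker = Subgroup.normalClosure {r} := by
    rw [hker]
    rcases Nat.le_one_iff_eq_zero_or_eq_one.mp hR with h0 | h1
    · rw [Set.ncard_eq_zero hRf] at h0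
      refine ⟨1, ?_⟩
      rw [h0]
      refine le_antisymm (Subgroup.normalClosure_mono (Set.empty_subset _)) ?_
      refine Subgroup.normalClosure_le_normal ?_
      rw [Set.singleton_subset_iff]
      exact Subgroup.one_mem _
    · obtain ⟨r, rfl⟩ := Set.ncard_eq_one.mp h1
      exact ⟨r, rfl⟩
  let X : RetH N' H k :=
    { q := q, hq := hq, r := r, hr := hrk, ρ := ρ.comp (Subgroup.inclusion hN'N), s := Subgroup.inclusion hHN'
      hs := fun x => hρ x }
  have hG1 : HasRel 1 G := by
    obtain ⟨k, R, hR, hR1, ⟨e⟩⟩ := hG.2 ⊤ inferInstance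
    exact ⟨k, R, hR, hR1, ⟨(Subgroup.topEquiv).symm.trans e⟩⟩
  have hk := gens_ge hG1 h2 N' hN' q hq
  by_cases hD : ∃ m, X.D ℚ m ≠ 0
  · right
    obtain ⟨w, hw, hind⟩ := exists_indL X hl h hgen (by omega) hD
    have hemb := emb X w hw hind
    refine ⟨(q w : G), hN'N (q w).2, ?_⟩
    have h1 : Coprod.lift H.subtype (zpowersHom G (q w : G)) =
        N'.subtype.comp (Coprod.lift X.s (zpowersHom N' (X.q w))) := by
      apply Coprod.hom_ext
      · ext x
        rfl
      · apply MonoidHom.ext_mint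
        simp [X]
    rw [h1]
    exact N'.subtype_injective.comp hemb
  · left
    have hD' : ∀ m, X.D ℚ m = 0 := by
      intro m
      by_contra h0
      exact hD ⟨m, h0⟩
    exact free_of_der (b1 H) hfg' hl (der_of_zero X (fun m => D_zero X hD' m)) le_rfl

theorem free_or_emb {G : Type} [Group G] [Infinite G] (hG : IsMelnikov G)
    (h2 : ∀ a b : G, Subgroup.closure {a, b} ≠ ⊤) (H : Subgroup G) (hfg : H.FG) (hi : H.index = 0) (hH : VRet H) :
    IsFreeGroup H ∨ ∃ g : G, Function.Injective (Coprod.lift H.subtype (zpowersHom G g)) := by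
  obtain ⟨N, hHN, ρ, hN, hρ⟩ := hH
  rcases free_or_emb_mem hG h2 H hfg hi N hHN ρ hN hρ with h | ⟨g, -, hg⟩
  · exact Or.inl h
  · exact Or.inr ⟨g, hg⟩

theorem free_of_lr {G : Type} [Group G] [Infinite G] (hG : IsMelnikov G)
    (h2 : ∀ a b : G, Subgroup.closure {a, b} ≠ ⊤) (hLR : ∀ H : Subgroup G, H.FG → VRet H)
    (H : Subgroup G) (hfg : H.FG) (hi : H.index = 0) : IsFreeGroup H := by
  rcases free_or_emb hG h2 H hfg hi (hLR H hfg) with h | ⟨g, hg⟩
  · exact h
  · by_cases hH : Nontrivial H
    · obtain ⟨P, hP⟩ : ∃ P : Subgroup G, P = (Coprod.lift H.subtype (zpowersHom G g)).range := ⟨_, rfl⟩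
      have hPfg : P.FG := by
        rw [hP, Coprod.range_lift, Subgroup.range_subtype]
        exact hfg.sup ⟨{g}, by rw [Finset.coe_singleton, ← Subgroup.zpowers_eq_closure]; rfl⟩
      obtain ⟨M, hPM, σ, hM, hσ⟩ := hLR P hPfg
      let e : Coprod H (Multiplicative ℤ) ≃* P := (MonoidHom.ofInjective hg).trans (MulEquiv.subgroupCongr hP.symm)
      have h1 := free_retract hG M hM (A := H) (B := Multiplicative ℤ) (e.symm.toMonoidHom.comp σ)
        ((Subgroup.inclusion hPM).comp e.toMonoidHom) fun p => by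
          show e.symm (σ ⟨e p, _⟩) = p
          rw [hσ, e.symm_apply_apply]
      have h3 : IsFreeGroup (Coprod.inl : H →* Coprod H (Multiplicative ℤ)).range := inferInstance
      exact IsFreeGroup.ofMulEquiv (MonoidHom.ofInjective (f := (Coprod.inl : H →* Coprod H (Multiplicative ℤ)))
        Coprod.inl_injective).symm
    · rw [not_nontrivial_iff_subsingleton] at hH
      have h3 : IsFreeGroup (FreeGroup Empty) := inferInstance
      have e : FreeGroup Empty ≃* H := 
        { toFun := fun _ => 1, invFun := fun _ => 1, left_inv := fun _ => Subsingleton.elim _ _,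
          right_inv := fun _ => Subsingleton.elim _ _, map_mul' := fun _ _ => Subsingleton.elim _ _ }
      exact IsFreeGroup.ofMulEquiv e

end Pool.Agent.MelF
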