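import Pool.Agent.MelE.Free
import Pool.Agent.MelD.Fox

/-!
# Virtually free locally indicable groups (module F5)

`H` finitely generated, locally indicable, `H0` a free subgroup of finite index: `H` is free.  Induction on `b1 H` as in
`free_of_der` (same steps): `H` is torsion free (`tf_of_locInd`).  If `H` is not trivial, `H0` is not trivial, free and finitely
generated: `Der (ZMod 2) H0` (`der_of_free`: Fox derivatives; a finitely generated free group is a retract of
`FreeGroup (Fin k)`).  Let `T` be finite with `H = H0 T` (right cosets, `1 ∈ T`, representatives), `x = π x * τ x`.  `cut_of_der`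
for the finite set of the `π (t s)`, `t ∈ T`, `s ∈ S`, gives `B ⊆ H0` infinite, `H0 \ B` infinite, with finite boundary.
`B' = {x | π x ∈ B}` is infinite with infinite complement, and `π (x s) = π x * π (τ x * s)`, so `bd S B'` is finite
for a finite symmetric generating set `S` of `H`; `exists_nested`, `split` as in `free_of_der`: `H` is cyclic or the
free product of `H b`, both nontrivial retracts of smaller `b1`, locally indicable, virtually free (`H b ∩ H0` is
of finite index in `H b` and a subgroup of a free group).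
-/

open Pointwise Monoid

namespace Pool.Agent.MelF

open Pool.Agent.MelL (LocInd locInd_subgroup)
open Pool.Agent.MelE

/-- The Fox derivatives. -/
theorem der_freeGroup (K : Type) [Field K] (k : ℕ) : Der K (FreeGroup (Fin k)) := by
  refine ⟨k, FreeGroup.of, fun g m => MelD.fox (MonoidAlgebra.of K (FreeGroup (Fin k))) m g, ?_, ?_⟩
  · intro g h
    funext m
    exact MelD.coc_mul (MonoidAlgebra.of K (FreeGroup (Fin k))) _ g h
  · intro g
    exact (MelD.fundamental (MonoidAlgebra.of K (FreeGroup (Fin k))) g).symm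

/-- A finitely generated free group has a projective augmentation ideal. -/
theorem der_of_free (K : Type) [Field K] {F : Type} [Group F] (hfg : Group.FG F) (hf : IsFreeGroup F) :
    Der K F := by
  obtain ⟨α, hα, φ, hφ⟩ := Group.fg_iff_exists_freeGroup_hom_surjective_finite.mp hfg
  obtain ⟨k, ⟨e⟩⟩ := Finite.exists_equiv_fin α
  have h1 : Der K (FreeGroup α) :=
    der_retract (FreeGroup.freeGroupCongr e).toMonoidHom (FreeGroup.freeGroupCongr e).symm.toMonoidHom
      (fun x => (FreeGroup.freeGroupCongr e).symm_apply_apply x) (der_freeGroup K k)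
  choose σ hσ using fun x : IsFreeGroup.Generators F => hφ (IsFreeGroup.of x)
  refine der_retract (IsFreeGroup.lift σ) φ (fun x => ?_) h1
  have h2 : φ.comp (IsFreeGroup.lift σ) = MonoidHom.id F := by
    apply IsFreeGroup.ext_hom
    intro a
    rw [MonoidHom.comp_apply, IsFreeGroup.lift_of, hσ]
    rfl
  exact DFunLike.congr_fun h2 x

/-- Cuts of a finite index subgroup give cuts of the group. -/
theorem cut_of_virt {H : Type} [Group H] (H0 : Subgroup H) (h0 : H0.FiniteIndex) [Infinite H0]
    (hd : Der (ZMod 2) H0) (S : Finset H) : ∃ B : Set H, B.Infinite ∧ Bᶜ.Infinite ∧ (bd S B).Finite := by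
  classical
  obtain ⟨T, hT, h1T⟩ := H0.exists_isComplement_right 1
  have hTf : T.Finite := hT.finite_right
  obtain ⟨B, hB, hBc, hBf⟩ := cut_of_der hd
    ((hTf.toFinset ×ˢ S).image fun p => (hT.equiv (p.1 * p.2)).fst)
  have hself : ∀ b : H0, (hT.equiv (b : H)).fst = b := fun b =>
    hT.equiv_fst_eq_self_of_mem_of_one_mem h1T b.2
  refine ⟨{x | (hT.equiv x).fst ∈ B}, ?_, ?_, ?_⟩
  · refine (hB.image Subtype.val_injective.injOn).mono ?_
    rintro _ ⟨b, hb, rfl⟩
    show (hT.equiv (b : H)).fst ∈ B
    rw [hself]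
    exact hb
  · refine (hBc.image Subtype.val_injective.injOn).mono ?_
    rintro _ ⟨b, hb, rfl⟩
    show (hT.equiv (b : H)).fst ∉ B
    rw [hself]
    exact hb
  · have hfin : ((bd ((hTf.toFinset ×ˢ S).image fun p => (hT.equiv (p.1 * p.2)).fst) B) ×ˢ
        (T ×ˢ (S : Set H))).Finite := hBf.prod (hTf.prod S.finite_toSet)
    refine (hfin.image fun p => ((p.1.1 : H) * p.2.1, p.2.2)).subset ?_
    rintro ⟨x, s⟩ ⟨hs, hx, hxs⟩
    have hx' : (hT.equiv x).fst ∈ B := hx
    have hxs' : (hT.equiv (x * s)).fst ∉ B := hxs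
    have hxeq : ((hT.equiv x).fst : H) * ((hT.equiv x).snd : H) = x := hT.equiv_fst_mul_equiv_snd x
    have hmul : (hT.equiv (x * s)).fst = (hT.equiv x).fst * (hT.equiv (((hT.equiv x).snd : H) * s)).fst := by
      have h2 := hT.equiv_mul_left (hT.equiv x).fst (((hT.equiv x).snd : H) * s)
      rw [← mul_assoc, hxeq] at h2
      rw [h2]
    rw [hmul] at hxs'
    refine ⟨(((hT.equiv x).fst, (hT.equiv (((hT.equiv x).snd : H) * s)).fst),
      (((hT.equiv x).snd : H), s)), ⟨⟨?_, hx', hxs'⟩, (hT.equiv x).snd.2, hs⟩, ?_⟩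
    · exact Finset.mem_image.mpr ⟨(((hT.equiv x).snd : H), s), Finset.mem_product.mpr
        ⟨hTf.mem_toFinset.mpr (hT.equiv x).snd.2, hs⟩, rfl⟩
    · exact Prod.ext hxeq rfl

theorem free_aux (n : ℕ) : ∀ {A : Type} [Group A], Group.FG A → LocInd A →
    (∃ A0 : Subgroup A, A0.FiniteIndex ∧ IsFreeGroup A0) → b1 A ≤ n → IsFreeGroup A := by
  induction n using Nat.strong_induction_on with
  | _ n ih =>
    intro A _ hfg hloc hv hn
    obtain ⟨A0, hA0, hf⟩ := hv
    have tf := tf_of_locInd hloc
    by_cases h0 : ∀ g : A, g = 1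
    · exact free_cyclic tf 1 fun g => by rw [h0 g]; exact one_mem _
    push Not at h0
    obtain ⟨g0, hg0⟩ := h0
    have : Infinite A := infinite_of_tf tf hg0
    have hinf : Infinite A0 := by
      by_contra hfin
      rw [not_infinite_iff_finite] at hfin
      have h2 := A0.card_mul_index
      rw [Nat.card_eq_zero_of_infinite (α := A), mul_eq_zero] at h2
      rcases h2 with h2 | h2
      · exact Nat.card_pos.ne' h2
      · exact hA0.index_ne_zero h2
    obtain ⟨S, hS, hgen⟩ := exists_sym hfg
    obtain ⟨B, hB, hBc, hBf⟩ := cut_of_virt A0 hA0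
      (der_of_free (ZMod 2) (Subgroup.fg_of_index_ne_zero A0) hf) S
    obtain ⟨C, hC, hCc, hCf, hnest⟩ := exists_nested S hS hgen B hB hBc hBf
    rcases exists_split tf C hC hCc (fin_sep hS hgen hCf) hnest with ⟨s, hs⟩ | ⟨H, hne, hH⟩
    · exact free_cyclic tf s fun g => by rw [hs]; trivial
    · refine free_coprod H hH fun b => ?_
      obtain ⟨hfb, hlt⟩ := b1_lt hfg hloc H hne hH b
      refine ih (b1 (H b)) (by omega) hfb (locInd_subgroup hloc _)
        ⟨A0.subgroupOf (H b), inferInstance, ?_⟩ le_rfl
      let f : A0.subgroupOf (H b) →* A0 :=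
        { toFun := fun x => ⟨(x : H b), x.2⟩
          map_one' := rfl
          map_mul' := fun x y => rfl }
      have hfi : Function.Injective f := by
        intro x y hxy
        have h3 : (((x : H b) : A)) = (((y : H b) : A)) := congrArg (fun z : A0 => (z : A)) hxy
        exact Subtype.ext (Subtype.ext h3)
      exact IsFreeGroup.ofMulEquiv (MonoidHom.ofInjective hfi).symm

theorem free_of_virt {H : Type} [Group H] (hfg : Group.FG H) (hl : LocInd H) (H0 : Subgroup H) (h0 : H0.FiniteIndex)
    (hf : IsFreeGroup H0) : IsFreeGroup H :=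
  free_aux (b1 H) hfg hl ⟨H0, h0, hf⟩ le_rfl

end Pool.Agent.MelF
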