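import Pool.Agent.MelF.Main
import Pool.Agent.MelF.VFree

/-!
# Virtually LR

`free_of_vlr`: `G` infinite Mel'nikov, not generated by two elements, `G0` a subgroup of finite index all of whose
finitely generated subgroups are virtual retracts: every finitely generated subgroup `H` of infinite index of `G` is
free.  `free_of_lr` for `G0` (not generated by two elements by `gens_ge`) and `H ∩ G0`, then `free_of_virt`.
-/

namespace Pool.Agent.MelF

open Pool.Agent.MelG (HasRel IsMelnikov)
open Pool.Agent.MelL (LocInd locInd_subgroup locInd_melnikov)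

/-- A subgroup of finite index of a Mel'nikov group is a Mel'nikov group. -/
theorem melnikov_sub {G : Type} [Group G] (hG : IsMelnikov G) (G0 : Subgroup G) (h0 : G0.FiniteIndex) :
    IsMelnikov G0 := by
  refine ⟨fun g hg => ?_, fun M hM => ?_⟩
  · obtain ⟨K, hK, hgK⟩ := hG.1 g (fun h => hg (Subtype.ext h))
    exact ⟨K.subgroupOf G0, inferInstance, fun h => hgK h⟩
  · have h1 : (M.map G0.subtype).FiniteIndex := by
      refine ⟨?_⟩
      rw [Subgroup.index_map_subtype]
      exact mul_ne_zero hM.index_ne_zero h0.index_ne_zero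
    obtain ⟨y, R, a, b, ⟨e3⟩⟩ := hG.2 _ h1
    exact ⟨y, R, a, b, ⟨(M.equivMapOfInjective G0.subtype G0.subtype_injective).trans e3⟩⟩

/-- A subgroup of finite index of a one-relator group which is not generated by two elements is not generated by
two elements. -/
theorem not_two_sub {G : Type} [Group G] (hG : IsMelnikov G)
    (h2 : ∀ a b : G, Subgroup.closure {a, b} ≠ ⊤) (G0 : Subgroup G) (h0 : G0.FiniteIndex) (a b : G0) :
    Subgroup.closure {a, b} ≠ ⊤ := by
  intro h
  have hG1 : HasRel 1 G := by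
    obtain ⟨k, R, hR, hR1, ⟨e⟩⟩ := hG.2 ⊤ inferInstance
    exact ⟨k, R, hR, hR1, ⟨(Subgroup.topEquiv).symm.trans e⟩⟩
  have hr : Set.range (![a, b] : Fin 2 → G0) = {a, b} := by
    ext x
    constructor
    · rintro ⟨i, rfl⟩
      fin_cases i
      · left; rfl
      · right; rfl
    · rintro (rfl | rfl)
      · exact ⟨0, rfl⟩
      · exact ⟨1, rfl⟩
  have hq : Function.Surjective (FreeGroup.lift (![a, b] : Fin 2 → G0)) := by
    rw [← MonoidHom.range_eq_top, FreeGroup.range_lift_eq_closure, hr, h]
  have h3 := gens_ge hG1 h2 G0 h0 _ hq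
  have h4 : G0.index ≠ 0 := h0.index_ne_zero
  have h5 : G0.index = 1 := by omega
  rw [Subgroup.index_eq_one] at h5
  subst h5
  apply h2 (a : G) (b : G)
  have h6 := congrArg (Subgroup.map (⊤ : Subgroup G).subtype) h
  rw [MonoidHom.map_closure] at h6
  rw [← MonoidHom.range_eq_map, Subgroup.range_subtype] at h6
  refine Eq.trans (congrArg Subgroup.closure ?_) h6
  rw [Set.image_pair]
  rfl

theorem free_of_vlr {G : Type} [Group G] [Infinite G] (hG : IsMelnikov G)
    (h2 : ∀ a b : G, Subgroup.closure {a, b} ≠ ⊤) (G0 : Subgroup G) (h0 : G0.FiniteIndex)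
    (hLR : ∀ H : Subgroup G, H ≤ G0 → H.FG → VRet H)
    (H : Subgroup G) (hfg : H.FG) (hi : H.index = 0) : IsFreeGroup H := by
  have hinf : Infinite G0 := by
    by_contra hf
    rw [not_infinite_iff_finite] at hf
    have h1 : Finite G := by
      have h3 : Nat.card G ≠ 0 := by
        rw [← G0.card_mul_index]
        exact mul_ne_zero Nat.card_pos.ne' h0.index_ne_zero
      exact Nat.finite_of_card_ne_zero h3
    exact not_finite G
  have hfgH : Group.FG H := (Group.fg_iff_subgroup_fg H).mpr hfg
  -- `H ∩ G0` as a subgroup of `H`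
  have hfi : (G0.subgroupOf H).FiniteIndex := inferInstance
  have hfg0 : Group.FG (G0.subgroupOf H) := Subgroup.fg_of_index_ne_zero _
  let e : G0.subgroupOf H ≃* H.subgroupOf G0 :=
    { toFun := fun x => ⟨⟨x.1.1, x.2⟩, x.1.2⟩
      invFun := fun x => ⟨⟨x.1.1, x.2⟩, x.1.2⟩
      left_inv := fun _ => rfl
      right_inv := fun _ => rfl
      map_mul' := fun _ _ => rfl }
  have hfg1 : (H.subgroupOf G0).FG := by
    rw [← Group.fg_iff_subgroup_fg]
    exact Group.fg_of_surjective (f := e.toMonoidHom) e.surjective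
  have hi1 : (H.subgroupOf G0).index = 0 := by
    have h3 : H.relIndex G0 * G0.index = 0 := by
      have h5 : (H ⊓ G0).index = 0 := by
        have h6 := Subgroup.index_dvd_of_le (inf_le_left : H ⊓ G0 ≤ H)
        rw [hi] at h6
        exact Nat.eq_zero_of_zero_dvd h6
      rw [← Subgroup.inf_relIndex_right, Subgroup.relIndex_mul_index inf_le_right, h5]
    rcases mul_eq_zero.mp h3 with h4 | h4
    · exact h4
    · exact absurd h4 h0.index_ne_zero
  have hLR0 : ∀ K : Subgroup G0, K.FG → VRet K := by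
    intro K hK
    have hK' : (K.map G0.subtype).FG := by
      classical
      obtain ⟨S, hS⟩ := hK
      refine ⟨S.image G0.subtype, ?_⟩
      rw [Finset.coe_image, ← MonoidHom.map_closure, hS]
    obtain ⟨N, hKN, ρ, hN, hρ⟩ := hLR (K.map G0.subtype) (Subgroup.map_subtype_le K) hK'
    let eK : K ≃* K.map G0.subtype := K.equivMapOfInjective G0.subtype G0.subtype_injective
    refine ⟨N.subgroupOf G0, fun x hx => hKN ⟨x, hx, rfl⟩,
      eK.symm.toMonoidHom.comp (ρ.comp ⟨⟨fun x => ⟨x.1.1, x.2⟩, rfl⟩, fun _ _ => rfl⟩), inferInstance, fun x => ?_⟩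
    show eK.symm (ρ ⟨((x : G0) : G), _⟩) = x
    rw [MulEquiv.symm_apply_eq]
    exact hρ (eK x)
  have hf := free_of_lr (melnikov_sub hG G0 h0) (not_two_sub hG h2 G0 h0) hLR0 (H.subgroupOf G0) hfg1 hi1
  exact free_of_virt hfgH (locInd_subgroup (locInd_melnikov hG) H) (G0.subgroupOf H) hfi
    (IsFreeGroup.ofMulEquiv e.symm)

end Pool.Agent.MelF
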